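import Pool.Agent.TreewidthMinor.Defs

set_option autoImplicit false

/-!
# Disjoint triangles have a straight-line drawing
-/

namespace Pool.Agent.TreewidthMinor

/-- First coordinate. -/
noncomputable def px (l : Fin 3) : ℝ := if l = 1 then 1 else 0
/-- Second coordinate. -/
noncomputable def py (l : Fin 3) : ℝ := if l = 2 then 1 else 0

theorem px_nonneg (l : Fin 3) : 0 ≤ px l := by unfold px; split_ifs <;> norm_num
theorem px_le (l : Fin 3) : px l ≤ 1 := by unfold px; split_ifs <;> norm_num

/-- Position of a vertex. -/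
noncomputable def pos {t : ℕ} (w : Fin t × Fin 3) : ℝ × ℝ :=
  (2 * (w.1.val : ℝ) + px w.2, py w.2)

theorem seg_fst {a b c : ℝ × ℝ} (h : c ∈ segment ℝ a b) (lo hi : ℝ) (ha : lo ≤ a.1) (ha' : a.1 ≤ hi)
    (hb : lo ≤ b.1) (hb' : b.1 ≤ hi) : lo ≤ c.1 ∧ c.1 ≤ hi := by
  obtain ⟨s, t, hs, ht, hst, rfl⟩ := h
  simp only [Prod.fst_add, Prod.smul_fst, smul_eq_mul]
  have e1 : s * lo + t * lo = lo := by rw [← add_mul, hst, one_mul]
  have e2 : s * hi + t * hi = hi := by rw [← add_mul, hst, one_mul]
  have h1 := mul_le_mul_of_nonneg_left ha hs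
  have h2 := mul_le_mul_of_nonneg_left hb ht
  have h3 := mul_le_mul_of_nonneg_left ha' hs
  have h4 := mul_le_mul_of_nonneg_left hb' ht
  constructor <;> linarith

theorem pos_inj (t : ℕ) : Function.Injective (pos : Fin t × Fin 3 → ℝ × ℝ) := by
  rintro ⟨i, l⟩ ⟨j, m⟩ h
  have h1 : 2 * (i.val : ℝ) + px l = 2 * (j.val : ℝ) + px m := congrArg Prod.fst h
  have h2 : py l = py m := congrArg Prod.snd h
  have hlm : px l = px m ∧ i = j := by
    have a1 := px_nonneg l
    have a2 := px_le l
    have a3 := px_nonneg m
    have a4 := px_le m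
    have : (i.val : ℝ) = j.val := by
      by_contra hne
      rcases lt_or_gt_of_ne hne with h | h
      · have : (i.val : ℝ) + 1 ≤ j.val := by exact_mod_cast (show i.val + 1 ≤ j.val from by exact_mod_cast h)
        linarith
      · have : (j.val : ℝ) + 1 ≤ i.val := by exact_mod_cast (show j.val + 1 ≤ i.val from by exact_mod_cast h)
        linarith
    refine ⟨by linarith, ?_⟩
    apply Fin.ext
    exact_mod_cast this
  obtain ⟨h3, rfl⟩ := hlm
  have : l = m := by
    unfold px at h3
    unfold py at h2
    fin_cases l <;> fin_cases m <;> simp_all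
  rw [this]

theorem four_distinct (a b c d : Fin 3) (h1 : a ≠ b) (h2 : c ≠ d) (h3 : a ≠ c) (h4 : a ≠ d)
    (h5 : b ≠ c) (h6 : b ≠ d) : False := by
  have e1 : a.val ≠ b.val := fun h => h1 (Fin.ext h)
  have e2 : c.val ≠ d.val := fun h => h2 (Fin.ext h)
  have e3 : a.val ≠ c.val := fun h => h3 (Fin.ext h)
  have e4 : a.val ≠ d.val := fun h => h4 (Fin.ext h)
  have e5 : b.val ≠ c.val := fun h => h5 (Fin.ext h)
  have e6 : b.val ≠ d.val := fun h => h6 (Fin.ext h)
  omega

/-- Disjoint triangles have a straight-line drawing. -/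
theorem hasStraightDrawing_triangles (t : ℕ) : HasStraightDrawing (triangles t) := by
  refine ⟨pos, pos_inj t, ?_, ?_⟩
  · rintro ⟨i, a⟩ ⟨j, b⟩ ⟨k, c⟩ ⟨hij, hab⟩ hca hcb hseg
    simp only at hij hab
    subst hij
    have a1 := px_nonneg a
    have a2 := px_le a
    have b1 := px_nonneg b
    have b2 := px_le b
    have c1 := px_nonneg c
    have c2 := px_le c
    have hx := seg_fst hseg (2 * (i.val : ℝ)) (2 * (i.val : ℝ) + 1)
      (by simp only [pos]; linarith) (by simp only [pos]; linarith)
      (by simp only [pos]; linarith) (by simp only [pos]; linarith)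
    simp only [pos] at hx
    have hki : k = i := by
      have : (k.val : ℝ) = i.val := by
        by_contra hne
        rcases lt_or_gt_of_ne hne with h | h
        · have : (k.val : ℝ) + 1 ≤ i.val := by
            exact_mod_cast (show k.val + 1 ≤ i.val from by exact_mod_cast h)
          linarith [hx.1]
        · have : (i.val : ℝ) + 1 ≤ k.val := by
            exact_mod_cast (show i.val + 1 ≤ k.val from by exact_mod_cast h)
          linarith [hx.2]
      apply Fin.ext
      exact_mod_cast this
    subst hki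
    have hca' : c ≠ a := fun h => hca (by rw [h])
    have hcb' : c ≠ b := fun h => hcb (by rw [h])
    obtain ⟨s, u, hs, hu, hsu, heq⟩ := hseg
    have e1 : s * (2 * (k.val : ℝ) + px a) + u * (2 * (k.val : ℝ) + px b) =
        2 * (k.val : ℝ) + px c := congrArg Prod.fst heq
    have e2 : s * py a + u * py b = py c := congrArg Prod.snd heq
    have e3 : s * px a + u * px b = px c := by
      have : s * (2 * (k.val : ℝ) + px a) + u * (2 * (k.val : ℝ) + px b) =
        (s + u) * (2 * (k.val : ℝ)) + (s * px a + u * px b) := by ring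
      rw [this, hsu] at e1
      linarith
    unfold px at e3
    unfold py at e2
    fin_cases a <;> fin_cases b <;> fin_cases c <;> simp at hab hca' hcb' e2 e3 <;> linarith
  · rintro ⟨i, a⟩ ⟨i', b⟩ ⟨j, c⟩ ⟨j', d⟩ ⟨h1, hab⟩ ⟨h2, hcd⟩ n1 n2 n3 n4
    simp only at h1 h2 hab hcd
    subst h1
    subst h2
    have hij : i ≠ j := by
      rintro rfl
      have m1 : a ≠ c := fun h => n1 (by rw [h])
      have m2 : a ≠ d := fun h => n2 (by rw [h])
      have m3 : b ≠ c := fun h => n3 (by rw [h])
      have m4 : b ≠ d := fun h => n4 (by rw [h])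
      exact four_distinct a b c d hab hcd m1 m2 m3 m4
    rw [Set.disjoint_left]
    intro z hz hz'
    have a1 := px_nonneg a
    have a2 := px_le a
    have b1 := px_nonneg b
    have b2 := px_le b
    have c1 := px_nonneg c
    have c2 := px_le c
    have d1 := px_nonneg d
    have d2 := px_le d
    have hx := seg_fst hz (2 * (i.val : ℝ)) (2 * (i.val : ℝ) + 1)
      (by simp only [pos]; linarith) (by simp only [pos]; linarith)
      (by simp only [pos]; linarith) (by simp only [pos]; linarith)
    have hy := seg_fst hz' (2 * (j.val : ℝ)) (2 * (j.val : ℝ) + 1)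
      (by simp only [pos]; linarith) (by simp only [pos]; linarith)
      (by simp only [pos]; linarith) (by simp only [pos]; linarith)
    rcases Nat.lt_or_gt_of_ne (fun h => hij (Fin.ext h)) with h | h
    · have : (i.val : ℝ) + 1 ≤ j.val := by exact_mod_cast h
      linarith [hx.2, hy.1]
    · have : (j.val : ℝ) + 1 ≤ i.val := by exact_mod_cast h
      linarith [hx.1, hy.2]

end Pool.Agent.TreewidthMinor
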