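import Mathlib

set_option autoImplicit false

/-!
# An explicit dense-like triangle-free graph

For an odd prime `p`, the vertices are the pairs `(a, s)` with `a, s ∈ ZMod p` and `s` not a square;
`(a, s)` and `(b, t)` are adjacent when `(a - b)² + s + t = 0`.
-/

namespace Pool.Agent.TreewidthMinor

variable (p : ℕ) [hp : Fact p.Prime]

/-- The vertex set. -/
abbrev PV : Type := {x : ZMod p × ZMod p // ¬ IsSquare x.2}

/-- The graph. -/
def PG (hp2 : p ≠ 2) : SimpleGraph (PV p) where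
  Adj x y := (x.1.1 - y.1.1) ^ 2 + x.1.2 + y.1.2 = 0
  symm := ⟨fun x y h => by
    have : (y.1.1 - x.1.1) ^ 2 + y.1.2 + x.1.2 = (x.1.1 - y.1.1) ^ 2 + x.1.2 + y.1.2 := by ring
    rw [this]; exact h⟩
  loopless := ⟨fun x h => by
    have h2 : (2 : ZMod p) * x.1.2 = 0 := by linear_combination h
    have h3 : (2 : ZMod p) ≠ 0 := by
      intro h4
      have : (p : ℕ) ∣ 2 := by
        rw [← ZMod.natCast_eq_zero_iff]
        exact_mod_cast h4
      exact hp2 ((Nat.prime_dvd_prime_iff_eq hp.out Nat.prime_two).1 this)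
    rcases mul_eq_zero.1 h2 with h4 | h4
    · exact h3 h4
    · exact x.2 (by rw [h4]; exact IsSquare.zero)⟩

/-- The product of three nonsquares is not a square. -/
theorem nonsq_mul (a b c : ZMod p) (ha : ¬ IsSquare a) (hb : ¬ IsSquare b) (hc : ¬ IsSquare c) :
    ¬ IsSquare (a * b * c) := by
  have h0 : a * b ≠ 0 := by
    intro h
    rcases mul_eq_zero.1 h with h | h
    · exact ha (by rw [h]; exact IsSquare.zero)
    · exact hb (by rw [h]; exact IsSquare.zero)
  have hab : IsSquare (a * b) := by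
    have ha' := quadraticChar_neg_one_iff_not_isSquare.2 ha
    have hb' := quadraticChar_neg_one_iff_not_isSquare.2 hb
    rw [← quadraticChar_one_iff_isSquare h0, map_mul, ha', hb']
    norm_num
  intro h
  obtain ⟨r, hr⟩ := h
  obtain ⟨q, hq⟩ := hab
  have hq0 : q ≠ 0 := by
    rintro rfl
    apply h0
    rw [hq, mul_zero]
  apply hc
  refine ⟨r / q, ?_⟩
  field_simp
  rw [hq] at hr
  linear_combination hr

/-- The graph has no triangle. -/
theorem PG_triangle_free (hp2 : p ≠ 2) (x y z : PV p) (hxy : (PG p hp2).Adj x y)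
    (hyz : (PG p hp2).Adj y z) (hzx : (PG p hp2).Adj z x) : False := by
  have hxy' : (x.1.1 - y.1.1) ^ 2 + x.1.2 + y.1.2 = 0 := hxy
  have hyz' : (y.1.1 - z.1.1) ^ 2 + y.1.2 + z.1.2 = 0 := hyz
  have hzx' : (z.1.1 - x.1.1) ^ 2 + z.1.2 + x.1.2 = 0 := hzx
  have h3 : (2 : ZMod p) ≠ 0 := by
    intro h4
    have : (p : ℕ) ∣ 2 := by
      rw [← ZMod.natCast_eq_zero_iff]
      exact_mod_cast h4
    exact hp2 ((Nat.prime_dvd_prime_iff_eq hp.out Nat.prime_two).1 this)
  have hs : x.1.2 = -((x.1.1 - y.1.1) * (x.1.1 - z.1.1)) := by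
    apply mul_left_cancel₀ h3
    linear_combination hxy' + hzx' - hyz'
  have ht : y.1.2 = -((y.1.1 - x.1.1) * (y.1.1 - z.1.1)) := by
    apply mul_left_cancel₀ h3
    linear_combination hxy' + hyz' - hzx'
  have hu : z.1.2 = -((z.1.1 - x.1.1) * (z.1.1 - y.1.1)) := by
    apply mul_left_cancel₀ h3
    linear_combination hzx' + hyz' - hxy'
  apply nonsq_mul p _ _ _ x.2 y.2 z.2
  refine ⟨(x.1.1 - y.1.1) * (y.1.1 - z.1.1) * (z.1.1 - x.1.1), ?_⟩
  rw [hs, ht, hu]
  ring

/-- Number of points of `A` related to `y`. -/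
def pdeg (A : Finset (ZMod p × ZMod p)) (y : ZMod p × ZMod p) : ℕ :=
  (A.filter (fun x => (x.1 - y.1) ^ 2 + x.2 + y.2 = 0)).card

theorem card_nbrs (x : ZMod p × ZMod p) :
    (Finset.univ.filter (fun y : ZMod p × ZMod p => (x.1 - y.1) ^ 2 + x.2 + y.2 = 0)).card = p := by
  have : (Finset.univ.filter (fun y : ZMod p × ZMod p => (x.1 - y.1) ^ 2 + x.2 + y.2 = 0)) =
      (Finset.univ : Finset (ZMod p)).image (fun c => (c, -((x.1 - c) ^ 2 + x.2))) := by
    ext y
    rw [Finset.mem_filter, Finset.mem_image]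
    constructor
    · rintro ⟨-, h⟩
      refine ⟨y.1, Finset.mem_univ _, ?_⟩
      ext
      · rfl
      · simp only; linear_combination -h
    · rintro ⟨c, -, rfl⟩
      refine ⟨Finset.mem_univ _, ?_⟩
      simp only; ring
  rw [this, Finset.card_image_of_injective, Finset.card_univ, ZMod.card]
  intro c d h
  exact congrArg Prod.fst h

theorem card_common_le (hp2 : p ≠ 2) (x x' : ZMod p × ZMod p) (hx : x ≠ x') :
    (Finset.univ.filter (fun y : ZMod p × ZMod p => (x.1 - y.1) ^ 2 + x.2 + y.2 = 0 ∧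
      (x'.1 - y.1) ^ 2 + x'.2 + y.2 = 0)).card ≤ 1 := by
  have h3 : (2 : ZMod p) ≠ 0 := by
    intro h4
    have : (p : ℕ) ∣ 2 := by
      rw [← ZMod.natCast_eq_zero_iff]
      exact_mod_cast h4
    exact hp2 ((Nat.prime_dvd_prime_iff_eq hp.out Nat.prime_two).1 this)
  rw [Finset.card_le_one]
  intro y hy z hz
  rw [Finset.mem_filter] at hy hz
  obtain ⟨-, hy1, hy2⟩ := hy
  obtain ⟨-, hz1, hz2⟩ := hz
  have hne : x.1 - x'.1 ≠ 0 := by
    intro h
    apply hx
    have h1 : x.1 = x'.1 := by linear_combination h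
    ext
    · exact h1
    · rw [h1] at hy1
      linear_combination hy1 - hy2
  have h1 : y.1 = z.1 := by
    have : (2 * (x.1 - x'.1)) * y.1 = (2 * (x.1 - x'.1)) * z.1 := by
      linear_combination hy2 - hy1 - hz2 + hz1
    exact mul_left_cancel₀ (mul_ne_zero h3 hne) this
  ext
  · exact h1
  · rw [h1] at hy1
    linear_combination hy1 - hz1

theorem sum_pdeg (A : Finset (ZMod p × ZMod p)) : ∑ y, pdeg p A y = p * A.card := by
  unfold pdeg
  simp only [Finset.card_filter]
  rw [Finset.sum_comm]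
  have : ∀ x ∈ A, ∑ y : ZMod p × ZMod p, (if (x.1 - y.1) ^ 2 + x.2 + y.2 = 0 then 1 else 0) = p := by
    intro x _
    rw [← Finset.card_filter]
    exact card_nbrs p x
  rw [Finset.sum_congr rfl this, Finset.sum_const, smul_eq_mul, mul_comm]

theorem sum_pdeg_sq (hp2 : p ≠ 2) (A : Finset (ZMod p × ZMod p)) :
    ∑ y, (pdeg p A y) ^ 2 ≤ p * A.card + A.card * A.card := by
  have h1 : ∀ y, (pdeg p A y) ^ 2 = ∑ x ∈ A, ∑ x' ∈ A,
      (if (x.1 - y.1) ^ 2 + x.2 + y.2 = 0 ∧ (x'.1 - y.1) ^ 2 + x'.2 + y.2 = 0 then 1 else 0) := by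
    intro y
    unfold pdeg
    simp only [Finset.card_filter]
    rw [sq, Finset.sum_mul_sum]
    refine Finset.sum_congr rfl fun x _ => Finset.sum_congr rfl fun x' _ => ?_
    by_cases h : (x.1 - y.1) ^ 2 + x.2 + y.2 = 0 <;>
      by_cases h' : (x'.1 - y.1) ^ 2 + x'.2 + y.2 = 0 <;> simp [h, h']
  simp only [h1]
  rw [Finset.sum_comm]
  have h2 : ∀ x ∈ A, ∑ y : ZMod p × ZMod p, ∑ x' ∈ A,
      (if (x.1 - y.1) ^ 2 + x.2 + y.2 = 0 ∧ (x'.1 - y.1) ^ 2 + x'.2 + y.2 = 0 then 1 else 0)
      ≤ p + A.card := by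
    intro x hx
    rw [Finset.sum_comm]
    have h3 : ∀ x' ∈ A, ∑ y : ZMod p × ZMod p,
      (if (x.1 - y.1) ^ 2 + x.2 + y.2 = 0 ∧ (x'.1 - y.1) ^ 2 + x'.2 + y.2 = 0 then 1 else 0) ≤
        (if x' = x then p else 0) + 1 := by
      intro x' _
      rw [← Finset.card_filter]
      by_cases h : x' = x
      · rw [if_pos h, h]
        refine le_trans ?_ (Nat.le_succ _)
        refine le_trans (Finset.card_le_card ?_) (card_nbrs p x).le
        intro y hy
        rw [Finset.mem_filter] at hy ⊢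
        exact ⟨hy.1, hy.2.1⟩
      · rw [if_neg h, zero_add]
        exact card_common_le p hp2 x x' (Ne.symm h)
    refine (Finset.sum_le_sum h3).trans ?_
    rw [Finset.sum_add_distrib, Finset.sum_ite_eq' A x, if_pos hx]
    simp
  refine (Finset.sum_le_sum h2).trans ?_
  rw [Finset.sum_const, smul_eq_mul]
  apply le_of_eq
  ring

/-- Anticomplete sets satisfy `|A| |B| ≤ p³`. -/
theorem card_mul_card_le (hp2 : p ≠ 2) (A B : Finset (ZMod p × ZMod p))
    (hAB : ∀ x ∈ A, ∀ y ∈ B, (x.1 - y.1) ^ 2 + x.2 + y.2 ≠ 0) :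
    A.card * B.card ≤ p ^ 3 := by
  rcases Nat.eq_zero_or_pos A.card with h0 | hpos
  · rw [h0, zero_mul]; exact Nat.zero_le _
  have hzero : ∀ y ∈ B, pdeg p A y = 0 := by
    intro y hy
    unfold pdeg
    rw [Finset.card_eq_zero, Finset.filter_eq_empty_iff]
    intro x hx
    exact hAB x hx y hy
  have h1 : ∑ y : ZMod p × ZMod p, ((p : ℤ) * pdeg p A y - A.card) ^ 2 ≤ (p : ℤ) ^ 3 * A.card := by
    have e1 : ∑ y : ZMod p × ZMod p, ((p : ℤ) * pdeg p A y - A.card) ^ 2 =
        (p : ℤ) ^ 2 * ∑ y : ZMod p × ZMod p, (pdeg p A y : ℤ) ^ 2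
          - 2 * (p : ℤ) * A.card * ∑ y : ZMod p × ZMod p, (pdeg p A y : ℤ)
          + ∑ y : ZMod p × ZMod p, (A.card : ℤ) ^ 2 := by
      rw [Finset.mul_sum, Finset.mul_sum, ← Finset.sum_sub_distrib, ← Finset.sum_add_distrib]
      refine Finset.sum_congr rfl fun y _ => ?_
      ring
    have e2 : ∑ y : ZMod p × ZMod p, (pdeg p A y : ℤ) = p * A.card := by
      exact_mod_cast sum_pdeg p A
    have e3 : ∑ y : ZMod p × ZMod p, (pdeg p A y : ℤ) ^ 2 ≤ p * A.card + A.card * A.card := by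
      exact_mod_cast sum_pdeg_sq p hp2 A
    have e4 : ∑ y : ZMod p × ZMod p, (A.card : ℤ) ^ 2 = (p : ℤ) ^ 2 * (A.card : ℤ) ^ 2 := by
      rw [Finset.sum_const, Finset.card_univ, Fintype.card_prod, ZMod.card]
      simp only [nsmul_eq_mul, Nat.cast_mul]
      ring
    rw [e1, e2, e4]
    have hp0 : (0 : ℤ) ≤ (p : ℤ) ^ 2 := by positivity
    nlinarith [mul_le_mul_of_nonneg_left e3 hp0]
  have h2 : (B.card : ℤ) * (A.card : ℤ) ^ 2 ≤
      ∑ y : ZMod p × ZMod p, ((p : ℤ) * pdeg p A y - A.card) ^ 2 := by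
    have : (B.card : ℤ) * (A.card : ℤ) ^ 2 = ∑ y ∈ B, ((p : ℤ) * pdeg p A y - A.card) ^ 2 := by
      rw [Finset.sum_congr rfl (fun y hy => by rw [hzero y hy])]
      rw [Finset.sum_const]
      simp
    rw [this]
    exact Finset.sum_le_sum_of_subset_of_nonneg (Finset.subset_univ _) (fun _ _ _ => sq_nonneg _)
  have h3 : (A.card : ℤ) * ((A.card : ℤ) * B.card) ≤ (A.card : ℤ) * (p : ℤ) ^ 3 := by
    have := h2.trans h1
    linarith [this]
  have hpos' : (0 : ℤ) < A.card := by exact_mod_cast hpos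
  have h4 := le_of_mul_le_mul_left h3 hpos'
  exact_mod_cast h4

/-- The number of vertices is at least `p (p - 1) / 2`. -/
theorem card_PV (hp2 : p ≠ 2) : p * (p - 1) ≤ 2 * Fintype.card (PV p) := by
  classical
  obtain ⟨r, hr⟩ := FiniteField.exists_nonsquare (F := ZMod p) (by
    rw [ZMod.ringChar_zmod_n]; exact hp2)
  have hr0 : r ≠ 0 := by
    rintro rfl
    exact hr IsSquare.zero
  -- nonsquares and nonzero squares
  let N : Finset (ZMod p) := Finset.univ.filter (fun s => ¬ IsSquare s)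
  let Q : Finset (ZMod p) := Finset.univ.filter (fun s => IsSquare s ∧ s ≠ 0)
  have hQN : Q.card ≤ N.card := by
    refine Finset.card_le_card_of_injOn (fun s => r * s) ?_ ?_
    · intro s hs
      have hs' : IsSquare s ∧ s ≠ 0 := by simpa [Q] using hs
      simp only [N, Finset.coe_filter, Finset.mem_univ, true_and]
      intro hsq
      obtain ⟨q, hq⟩ := hs'.1
      obtain ⟨w, hw⟩ := (show IsSquare (r * s) from hsq)
      have hq0 : q ≠ 0 := by
        rintro rfl
        exact hs'.2 (by rw [hq, mul_zero])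
      apply hr
      refine ⟨w / q, ?_⟩
      field_simp
      rw [hq] at hw
      linear_combination hw
    · intro s _ t _ h
      exact mul_left_cancel₀ hr0 h
  have htot : p = 1 + Q.card + N.card := by
    have h1 : (Finset.univ : Finset (ZMod p)) = ({0} ∪ Q) ∪ N := by
      ext s
      simp only [Q, N, Finset.mem_univ, Finset.mem_union, Finset.mem_singleton, Finset.mem_filter,
        true_and, true_iff]
      tauto
    have h2 : Disjoint ({0} ∪ Q) N := by
      rw [Finset.disjoint_left]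
      intro s hs hs'
      simp only [Q, N, Finset.mem_union, Finset.mem_singleton, Finset.mem_filter,
        Finset.mem_univ, true_and] at hs hs'
      rcases hs with rfl | h
      · exact hs' IsSquare.zero
      · exact hs' h.1
    have h3 : Disjoint ({0} : Finset (ZMod p)) Q := by
      rw [Finset.disjoint_left]
      intro s hs hs'
      simp only [Q, Finset.mem_singleton, Finset.mem_filter, Finset.mem_univ, true_and] at hs hs'
      exact hs'.2 hs
    have := congrArg Finset.card h1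
    rw [Finset.card_union_of_disjoint h2, Finset.card_union_of_disjoint h3, Finset.card_univ,
      ZMod.card, Finset.card_singleton] at this
    exact this
  have hcard : Fintype.card (PV p) = p * N.card := by
    rw [Fintype.card_subtype]
    have : (Finset.univ.filter (fun x : ZMod p × ZMod p => ¬ IsSquare x.2)) =
        (Finset.univ : Finset (ZMod p)) ×ˢ N := by
      ext x
      simp [N]
    rw [this, Finset.card_product, Finset.card_univ, ZMod.card]
  rw [hcard]
  have : p - 1 ≤ 2 * N.card := by omega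
  calc p * (p - 1) ≤ p * (2 * N.card) := Nat.mul_le_mul_left _ this
    _ = 2 * (p * N.card) := by ring

/-- Two disjoint anticomplete vertex sets of the graph cannot both be larger than `m`,
if `p³ < (m + 1)²`. -/
theorem PG_anticomplete (hp2 : p ≠ 2) (m : ℕ) (hm : p ^ 3 < (m + 1) ^ 2) (A B : Finset (PV p))
    (hAB : ∀ a ∈ A, ∀ b ∈ B, ¬ (PG p hp2).Adj a b) : A.card ≤ m ∨ B.card ≤ m := by
  classical
  by_contra hcon
  push Not at hcon
  have h := card_mul_card_le p hp2 (A.map (Function.Embedding.subtype _))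
    (B.map (Function.Embedding.subtype _)) ?_
  · rw [Finset.card_map, Finset.card_map] at h
    have : (m + 1) * (m + 1) ≤ A.card * B.card := Nat.mul_le_mul hcon.1 hcon.2
    rw [sq] at hm
    omega
  · intro x hx y hy
    rw [Finset.mem_map] at hx hy
    obtain ⟨x, hx, rfl⟩ := hx
    obtain ⟨y, hy, rfl⟩ := hy
    exact hAB x hx y hy

end Pool.Agent.TreewidthMinor
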