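import Pool.Agent.TreewidthMinor.Cyc
import Pool.Agent.TreewidthMinor.Pseudo

set_option autoImplicit false

/-!
# The lower bound `f(t C₃) ≥ 3 t` for suitable `t`
-/

namespace Pool.Agent.TreewidthMinor

open SimpleGraph

variable {V : Type}

/-- A triangle-free graph with a `t C₃` minor has at least `4 t` vertices. -/
theorem card_of_triangles_minor [Fintype V] (G : SimpleGraph V) (t : ℕ)
    (htf : ∀ x y z, G.Adj x y → G.Adj y z → G.Adj z x → False)
    (h : IsMinor (triangles t) G) : 4 * t ≤ Fintype.card V := by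
  classical
  rw [isMinor_iff] at h
  obtain ⟨B, b1, b2, b3⟩ := h
  let F : Fin t × Fin 3 → Finset V := fun w => (B w).toFinset
  have hF : ∀ w x, x ∈ F w ↔ x ∈ B w := fun w x => Set.mem_toFinset
  have hFne : ∀ w, 1 ≤ (F w).card := by
    intro w
    obtain ⟨x, hx⟩ := (b1 w).1
    exact Finset.card_pos.2 ⟨x, (hF w x).2 hx⟩
  have hdisj : ∀ w w', w ≠ w' → Disjoint (F w) (F w') := by
    intro w w' hne
    rw [Finset.disjoint_left]
    intro x hx hx'
    exact Set.disjoint_left.1 (b2 w w' hne) ((hF _ _).1 hx) ((hF _ _).1 hx')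
  have hsum : ∑ w, (F w).card ≤ Fintype.card V := by
    rw [← Finset.card_biUnion (fun w _ w' _ hne => hdisj w w' hne)]
    exact Finset.card_le_univ _
  have hrow : ∀ i : Fin t, 4 ≤ ∑ l : Fin 3, (F (i, l)).card := by
    intro i
    rw [Fin.sum_univ_three]
    have h0 := hFne (i, 0)
    have h1 := hFne (i, 1)
    have h2 := hFne (i, 2)
    by_contra hcon
    have c0 : (F (i, 0)).card = 1 := by omega
    have c1 : (F (i, 1)).card = 1 := by omega
    have c2 : (F (i, 2)).card = 1 := by omega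
    obtain ⟨x0, e0⟩ := Finset.card_eq_one.1 c0
    obtain ⟨x1, e1⟩ := Finset.card_eq_one.1 c1
    obtain ⟨x2, e2⟩ := Finset.card_eq_one.1 c2
    have m0 : ∀ x, x ∈ B (i, 0) → x = x0 := by
      intro x hx
      have := (hF _ _).2 hx
      rw [e0] at this
      exact Finset.mem_singleton.1 this
    have m1 : ∀ x, x ∈ B (i, 1) → x = x1 := by
      intro x hx
      have := (hF _ _).2 hx
      rw [e1] at this
      exact Finset.mem_singleton.1 this
    have m2 : ∀ x, x ∈ B (i, 2) → x = x2 := by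
      intro x hx
      have := (hF _ _).2 hx
      rw [e2] at this
      exact Finset.mem_singleton.1 this
    have n01 : (0 : Fin 3) ≠ 1 := by decide
    have n12 : (1 : Fin 3) ≠ 2 := by decide
    have n20 : (2 : Fin 3) ≠ 0 := by decide
    obtain ⟨a, ha, b, hb, hab⟩ := b3 (i, 0) (i, 1) ⟨rfl, n01⟩
    obtain ⟨c, hc, d, hd, hcd⟩ := b3 (i, 1) (i, 2) ⟨rfl, n12⟩
    obtain ⟨e, he, f, hf, hef⟩ := b3 (i, 2) (i, 0) ⟨rfl, n20⟩
    rw [m0 a ha, m1 b hb] at hab
    rw [m1 c hc, m2 d hd] at hcd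
    rw [m2 e he, m0 f hf] at hef
    exact htf x0 x1 x2 hab hcd hef
  have h4 : ∑ i : Fin t, (4 : ℕ) ≤ ∑ i : Fin t, ∑ l : Fin 3, (F (i, l)).card :=
    Finset.sum_le_sum (fun i _ => hrow i)
  rw [Finset.sum_const, Finset.card_univ, Fintype.card_fin, smul_eq_mul] at h4
  rw [Fintype.sum_prod_type] at hsum
  omega

/-- For every prime `p ≥ 1000` and `t = ⌊n / 4⌋ + 1`, where `n` is the number of vertices of the
graph `PG`: the number `3 t - 1` does not force `t C₃`. -/
theorem three_mul_le (p : ℕ) [hp : Fact p.Prime] (hp1 : 1000 ≤ p) (k : ℕ)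
    (h : Forces (triangles (Fintype.card (PV p) / 4 + 1)) k) :
    3 * (Fintype.card (PV p) / 4 + 1) ≤ k := by
  classical
  have hp2 : p ≠ 2 := by omega
  have hcard := card_PV p hp2
  have hm1 : Nat.sqrt (p ^ 3) * Nat.sqrt (p ^ 3) ≤ p ^ 3 := Nat.sqrt_le _
  have hm2 : p ^ 3 < (Nat.sqrt (p ^ 3) + 1) ^ 2 := by
    have := Nat.lt_succ_sqrt (p ^ 3)
    rw [sq]; exact this
  generalize Nat.sqrt (p ^ 3) = m at hm1 hm2
  generalize hn : Fintype.card (PV p) = n at h hcard
  have hne : Nonempty (PV p) := by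
    rw [← Fintype.card_pos_iff, hn]
    have : 0 < p * (p - 1) := Nat.mul_pos (by omega) (by omega)
    omega
  -- tree-width of the graph
  have htw := le_treewidth (PG p hp2) m (fun A B _ hAB => PG_anticomplete p hp2 m hm2 A B hAB)
  rw [hn] at htw
  by_contra hcon
  push Not at hcon
  -- `3 t - 1 ≤ n - 1 - 3 m`
  have hmp : 24 * m + 24 ≤ p * (p - 1) := by
    obtain ⟨q, rfl⟩ : ∃ q, p = q + 1 := ⟨p - 1, by omega⟩
    have e : q + 1 - 1 = q := by omega
    rw [e]
    by_contra hc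
    push Not at hc
    have h1 : (q + 1) * q < 24 * (m + 1) := by omega
    have hq : 999 ≤ q := by omega
    have h2 : ((q + 1) * q) ^ 2 < (24 * (m + 1)) ^ 2 := Nat.pow_lt_pow_left h1 (by norm_num)
    have hm3 : (m + 1) ^ 2 ≤ 2 * (q + 1) ^ 3 := by
      have h5 : 1 ≤ m := by
        by_contra h6
        have : m = 0 := by omega
        subst this
        have : 1 ≤ (q + 1) ^ 3 := Nat.one_le_pow _ _ (by omega)
        omega
      have h7 : 3 ≤ m := by
        by_contra h6
        have : (m + 1) ^ 2 ≤ 3 ^ 2 := Nat.pow_le_pow_left (by omega) 2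
        have : 1000 ^ 3 ≤ (q + 1) ^ 3 := Nat.pow_le_pow_left (by omega) 3
        omega
      nlinarith
    have h3 : (24 * (m + 1)) ^ 2 ≤ 1152 * (q + 1) ^ 3 := by
      rw [mul_pow]; omega
    have h4 : ((q + 1) * q) ^ 2 < 1152 * (q + 1) ^ 3 := lt_of_lt_of_le h2 h3
    have h5 : q ^ 2 < 1152 * (q + 1) := by
      have e1 : ((q + 1) * q) ^ 2 = (q + 1) ^ 2 * q ^ 2 := by ring
      have e2 : 1152 * (q + 1) ^ 3 = (q + 1) ^ 2 * (1152 * (q + 1)) := by ring
      rw [e1, e2] at h4
      exact lt_of_mul_lt_mul_left h4 (Nat.zero_le _)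
    nlinarith
  have hk : k ≤ treewidth (PG p hp2) := by omega
  have hmin := h (PV p) (PG p hp2) hk
  have h4 := card_of_triangles_minor (PG p hp2) _
    (fun x y z hxy hyz hzx => PG_triangle_free p hp2 x y z hxy hyz hzx) hmin
  rw [hn] at h4
  omega

end Pool.Agent.TreewidthMinor
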