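import Pool.Agent.TreewidthMinor.Elim

set_option autoImplicit false

/-!
# Four-cycle minors, and the main equality
-/

namespace Pool.Agent.TreewidthMinor

open SimpleGraph

variable {V : Type}

/-- A model of the four-cycle inside the vertex set `S`. -/
def HasC4 (G : SimpleGraph V) (S : Set V) : Prop :=
  ∃ Q : Fin 4 → Set V, (∀ i, Q i ⊆ S) ∧ (∀ i, SC G (Q i)) ∧
    (∀ i j, i ≠ j → Disjoint (Q i) (Q j)) ∧ (∀ i, ∃ x ∈ Q i, ∃ y ∈ Q (i + 1), G.Adj x y)

theorem hasC4_mk (G : SimpleGraph V) (S : Set V) (Q0 Q1 Q2 Q3 : Set V)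
    (s0 : Q0 ⊆ S) (s1 : Q1 ⊆ S) (s2 : Q2 ⊆ S) (s3 : Q3 ⊆ S)
    (c0 : SC G Q0) (c1 : SC G Q1) (c2 : SC G Q2) (c3 : SC G Q3)
    (d01 : Disjoint Q0 Q1) (d02 : Disjoint Q0 Q2) (d03 : Disjoint Q0 Q3)
    (d12 : Disjoint Q1 Q2) (d13 : Disjoint Q1 Q3) (d23 : Disjoint Q2 Q3)
    (a01 : ∃ x ∈ Q0, ∃ y ∈ Q1, G.Adj x y) (a12 : ∃ x ∈ Q1, ∃ y ∈ Q2, G.Adj x y)
    (a23 : ∃ x ∈ Q2, ∃ y ∈ Q3, G.Adj x y) (a30 : ∃ x ∈ Q3, ∃ y ∈ Q0, G.Adj x y) :
    HasC4 G S := by
  refine ⟨![Q0, Q1, Q2, Q3], ?_, ?_, ?_, ?_⟩
  · intro i; fin_cases i <;> assumption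
  · intro i; fin_cases i <;> assumption
  · intro i j hij
    fin_cases i <;> fin_cases j <;>
      first
        | exact absurd rfl hij
        | assumption
        | (apply Disjoint.symm; assumption)
  · intro i; fin_cases i
    · exact a01
    · exact a12
    · exact a23
    · exact a30

theorem SC.image {V' : Type} {G' : SimpleGraph V'} {G : SimpleGraph V} (f : V' → V)
    (hf : ∀ x y, G'.Adj x y → G.Adj (f x) (f y)) {S : Set V'} (hS : SC G' S) : SC G (f '' S) := by
  have h := SC.biUnion (G := G) (B := fun x => {f x}) hS (fun x _ => SC.singleton G (f x))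
    (fun x _ y _ hxy => ⟨f x, rfl, f y, rfl, hf x y hxy⟩)
  have : (⋃ x ∈ S, ({f x} : Set V)) = f '' S := by
    ext z
    simp only [Set.mem_iUnion, Set.mem_singleton_iff, exists_prop, Set.mem_image]
    constructor
    · rintro ⟨x, hx, rfl⟩; exact ⟨x, hx, rfl⟩
    · rintro ⟨x, hx, rfl⟩; exact ⟨x, hx, rfl⟩
  rw [this] at h
  exact h

/-- Pushing a four-cycle model through a minor model. -/
theorem HasC4.of_minor {V' : Type} {G' : SimpleGraph V'} {G : SimpleGraph V}
    (B : V' → Set V) (h1 : ∀ w, SC G (B w)) (h2 : ∀ w w', w ≠ w' → Disjoint (B w) (B w'))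
    (h3 : ∀ w w', G'.Adj w w' → ∃ x ∈ B w, ∃ y ∈ B w', G.Adj x y) (h : HasC4 G' Set.univ) :
    HasC4 G Set.univ := by
  obtain ⟨Q, -, q1, q2, q3⟩ := h
  refine ⟨fun i => ⋃ x ∈ Q i, B x, fun _ => Set.subset_univ _, ?_, ?_, ?_⟩
  · intro i
    exact SC.biUnion (q1 i) (fun x _ => h1 x) (fun x _ y _ hxy => h3 x y hxy)
  · intro i j hij
    rw [Set.disjoint_left]
    intro a ha hb
    rw [Set.mem_iUnion₂] at ha hb
    obtain ⟨x, hx, ha⟩ := ha
    obtain ⟨y, hy, hb⟩ := hb
    have hxy : x = y := by
      by_contra hne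
      exact Set.disjoint_left.1 (h2 x y hne) ha hb
    subst hxy
    exact Set.disjoint_left.1 (q2 i j hij) hx hy
  · intro i
    obtain ⟨x, hx, y, hy, hxy⟩ := q3 i
    obtain ⟨a, ha, b, hb, hab⟩ := h3 x y hxy
    exact ⟨a, Set.mem_biUnion hx ha, b, Set.mem_biUnion hy hb, hab⟩

/-- A finite nonempty graph in which every vertex has three neighbours has a four-cycle minor. -/
theorem hasC4_of_degree [Finite V] [hne : Nonempty V] (G : SimpleGraph V)
    (hdeg : ∀ v a b : V, ∃ c, G.Adj v c ∧ c ≠ a ∧ c ≠ b) : HasC4 G Set.univ := by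
  classical
  have hV : Fintype V := Fintype.ofFinite V
  -- a longest path
  have hex : ∃ n : ℕ, ∀ (u v : V) (p : G.Walk u v), p.IsPath → p.length ≤ n :=
    ⟨Fintype.card V, fun u v p hp => hp.length_lt.le⟩
  have hmax : ∃ (u v : V) (p : G.Walk u v), p.IsPath ∧
      ∀ (u' v' : V) (p' : G.Walk u' v'), p'.IsPath → p'.length ≤ p.length := by
    have hspec := Nat.find_spec hex
    by_contra hcon
    push Not at hcon
    have hall : ∀ m : ℕ, ∃ (u v : V) (p : G.Walk u v), p.IsPath ∧ m ≤ p.length := by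
      intro m
      induction m with
      | zero =>
        obtain ⟨v⟩ := hne
        exact ⟨v, v, Walk.nil, Walk.IsPath.nil, Nat.zero_le _⟩
      | succ m ih =>
        obtain ⟨u, v, p, hp, hm⟩ := ih
        obtain ⟨u', v', p', hp', hlt⟩ := hcon u v p hp
        exact ⟨u', v', p', hp', by omega⟩
    obtain ⟨u, v, p, hp, hm⟩ := hall (Nat.find hex + 1)
    have := hspec u v p hp
    omega
  obtain ⟨u, v, p, hp, hmax⟩ := hmax
  have hnb : ∀ c, G.Adj u c → c ∈ p.support := by
    intro c hc
    by_contra hcs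
    have := hmax c v (Walk.cons hc.symm p) ((Walk.cons_isPath_iff _ _).2 ⟨hp, hcs⟩)
    rw [Walk.length_cons] at this
    omega
  cases p with
  | nil =>
    obtain ⟨c, hc, -, -⟩ := hdeg u u u
    have := hnb c hc
    rw [Walk.support_nil, List.mem_singleton] at this
    rw [this] at hc
    exact absurd hc (G.irrefl)
  | cons h1 p1 =>
    rename_i v1
    cases p1 with
    | nil =>
      obtain ⟨c, hc, hcv, -⟩ := hdeg u v v
      have := hnb c hc
      simp only [Walk.support_cons, Walk.support_nil, List.mem_cons, List.not_mem_nil,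
        or_false] at this
      rcases this with rfl | rfl
      · exact absurd hc G.irrefl
      · exact absurd rfl hcv
    | cons h2 q =>
      rename_i v2
      obtain ⟨c, hc, hcv1, hcv2⟩ := hdeg u v1 v2
      have hcs := hnb c hc
      have hcu : c ≠ u := hc.ne'
      have hcq : c ∈ q.support := by
        simp only [Walk.support_cons, List.mem_cons] at hcs
        rcases hcs with h | h | h
        · exact absurd h hcu
        · exact absurd h hcv1
        · exact h
      rw [Walk.cons_isPath_iff, Walk.cons_isPath_iff] at hp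
      obtain ⟨⟨hq, hv1q⟩, huq⟩ := hp
      have huv1 : u ≠ v1 := h1.ne
      have huq' : u ∉ q.support := by
        intro h
        apply huq
        rw [Walk.support_cons, List.mem_cons]
        exact Or.inr h
      obtain ⟨Q, hQ1, hQ2, hQ3, hQ4, z, hz, hcz⟩ := SC.split (SC.support q) (x := c) (y := v2) hcq
        q.start_mem_support hcv2
      have hQ1' : ∀ x ∈ Q, x ∈ q.support := fun x hx => hQ1 hx
      refine hasC4_mk G _ {u} {v1} Q {c} (Set.subset_univ _) (Set.subset_univ _)
        (Set.subset_univ _) (Set.subset_univ _) (SC.singleton _ _) (SC.singleton _ _) hQ2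
        (SC.singleton _ _) ?_ ?_ ?_ ?_ ?_ ?_ ⟨u, rfl, v1, rfl, h1⟩ ⟨v1, rfl, v2, hQ3, h2⟩
        ⟨z, hz, c, rfl, hcz.symm⟩ ⟨c, rfl, u, rfl, hc.symm⟩
      · rw [Set.disjoint_singleton]; exact huv1
      · rw [Set.disjoint_singleton_left]; exact fun h => huq' (hQ1' _ h)
      · rw [Set.disjoint_singleton]; exact hcu.symm
      · rw [Set.disjoint_singleton_left]; exact fun h => hv1q (hQ1' _ h)
      · rw [Set.disjoint_singleton]; exact hcv1.symm
      · rw [Set.disjoint_singleton_right]; exact hQ4

/-- A graph without a tree-decomposition of width two has a four-cycle minor. -/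
theorem hasC4_of_not_hasWidth [Finite V] (G : SimpleGraph V) (h : ¬ HasWidth G 2) :
    HasC4 G Set.univ := by
  obtain ⟨V', hV', G', hmin, hw, hdeg⟩ := exists_minor_degree 2 le_rfl (Nat.card V) V G rfl h
  have hne : Nonempty V' := by
    by_contra hcon
    rw [not_nonempty_iff] at hcon
    have := Fintype.ofFinite V'
    exact hw (hasWidth_of_card G' 2 (by simp))
  rw [isMinor_iff] at hmin
  obtain ⟨B, h1, h2, h3⟩ := hmin
  exact HasC4.of_minor B h1 h2 h3 (hasC4_of_degree G' hdeg)

/-- A triangle model with two different attaching points in `B0` gives a four-cycle model. -/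
theorem hasC4_of_two_points {G : SimpleGraph V} {B0 B1 B2 : Set V} (c0 : SC G B0) (c1 : SC G B1)
    (c2 : SC G B2) (d01 : Disjoint B0 B1) (d02 : Disjoint B0 B2) (d12 : Disjoint B1 B2)
    {x y x1 y2 : V} (hx : x ∈ B0) (hy : y ∈ B0) (hxy : x ≠ y) (hx1 : x1 ∈ B1) (hy2 : y2 ∈ B2)
    (ax : G.Adj x x1) (ay : G.Adj y y2) (a12 : ∃ a ∈ B1, ∃ b ∈ B2, G.Adj a b) (S : Set V)
    (s0 : B0 ⊆ S) (s1 : B1 ⊆ S) (s2 : B2 ⊆ S) : HasC4 G S := by
  obtain ⟨Q, hQ1, hQ2, hQ3, hQ4, z, hz, hxz⟩ := SC.split c0 hx hy hxy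
  refine hasC4_mk G S {x} B1 B2 Q ?_ s1 s2 (hQ1.trans s0) (SC.singleton _ _) c1 c2 hQ2
    ?_ ?_ ?_ d12 ?_ ?_ ⟨x, rfl, x1, hx1, ax⟩ a12 ⟨y2, hy2, y, hQ3, ay.symm⟩
    ⟨z, hz, x, rfl, hxz.symm⟩
  · rintro a rfl; exact s0 hx
  · rw [Set.disjoint_singleton_left]; exact fun h => Set.disjoint_left.1 d01 hx h
  · rw [Set.disjoint_singleton_left]; exact fun h => Set.disjoint_left.1 d02 hx h
  · rw [Set.disjoint_singleton_left]; exact hQ4
  · exact (d01.mono_left hQ1).symm
  · exact (d02.mono_left hQ1).symm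

/-- A triangle model contains a four-cycle model or an actual triangle. -/
theorem hasC4_or_triangle {G : SimpleGraph V} {B : Fin 3 → Set V} (hc : ∀ i, SC G (B i))
    (hd : ∀ i j, i ≠ j → Disjoint (B i) (B j))
    (ha : ∀ i j, i ≠ j → ∃ a ∈ B i, ∃ b ∈ B j, G.Adj a b) :
    HasC4 G (⋃ i, B i) ∨ ∃ x : Fin 3 → V, (∀ i, x i ∈ B i) ∧ ∀ i j, i ≠ j → G.Adj (x i) (x j) := by
  obtain ⟨p01, hp01, p10, hp10, a01⟩ := ha 0 1 (by decide)
  obtain ⟨p02, hp02, p20, hp20, a02⟩ := ha 0 2 (by decide)
  obtain ⟨p12, hp12, p21, hp21, a12⟩ := ha 1 2 (by decide)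
  have hs : ∀ i, B i ⊆ ⋃ i, B i := fun i => Set.subset_iUnion B i
  by_cases h0 : p01 = p02
  · by_cases h1 : p10 = p12
    · by_cases h2 : p20 = p21
      · right
        refine ⟨![p01, p10, p20], ?_, ?_⟩
        · intro i; fin_cases i
          · exact hp01
          · exact hp10
          · exact hp20
        · subst h0 h1 h2
          intro i j hij
          fin_cases i <;> fin_cases j
          · exact absurd rfl hij
          · exact a01
          · exact a02
          · exact a01.symm
          · exact absurd rfl hij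
          · exact a12
          · exact a02.symm
          · exact a12.symm
          · exact absurd rfl hij
      · left
        exact hasC4_of_two_points (hc 2) (hc 0) (hc 1) (hd 2 0 (by decide)) (hd 2 1 (by decide))
          (hd 0 1 (by decide)) hp20 hp21 h2 hp02 hp12 a02.symm a12.symm ⟨_, hp01, _, hp10, a01⟩ _
          (hs 2) (hs 0) (hs 1)
    · left
      exact hasC4_of_two_points (hc 1) (hc 0) (hc 2) (hd 1 0 (by decide)) (hd 1 2 (by decide))
        (hd 0 2 (by decide)) hp10 hp12 h1 hp01 hp21 a01.symm a12 ⟨_, hp02, _, hp20, a02⟩ _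
        (hs 1) (hs 0) (hs 2)
  · left
    exact hasC4_of_two_points (hc 0) (hc 1) (hc 2) (hd 0 1 (by decide)) (hd 0 2 (by decide))
      (hd 1 2 (by decide)) hp01 hp02 h0 hp10 hp20 a01 a02 ⟨_, hp12, _, hp21, a12⟩ _
      (hs 0) (hs 1) (hs 2)

theorem third_eq : ∀ a b : Fin 3, a ≠ b → ∀ x y : Fin 3, x ≠ a → x ≠ b → y ≠ a → y ≠ b →
    x = y := by
  decide

/-- The index of the branch set of a vertex of the subdivided triangle. -/
def idxF (a b : Fin 3) : Option (Fin 3) → Fin 4
  | none => 1
  | some x => if x = a then 0 else if x = b then 2 else 3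

theorem idxF_inj : ∀ a b : Fin 3, a ≠ b → ∀ x y : Option (Fin 3), idxF a b x = idxF a b y →
    x = y := by
  decide

/-- Assembling the subdivided graph. -/
theorem build {t : ℕ} (G : SimpleGraph V) (i₀ : Fin t) (a b : Fin 3) (hab : a ≠ b)
    (R : Fin t × Fin 3 → Set V) (r1 : ∀ w, w.1 ≠ i₀ → SC G (R w))
    (r2 : ∀ w w', w.1 ≠ i₀ → w'.1 ≠ i₀ → w ≠ w' → Disjoint (R w) (R w'))
    (r3 : ∀ w w', w.1 ≠ i₀ → w'.1 ≠ i₀ → (triangles t).Adj w w' →
      ∃ x ∈ R w, ∃ y ∈ R w', G.Adj x y)
    (Q : Fin 4 → Set V) (q1 : ∀ i, SC G (Q i))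
    (q2 : ∀ i j, i ≠ j → Disjoint (Q i) (Q j)) (q3 : ∀ i, ∃ x ∈ Q i, ∃ y ∈ Q (i + 1), G.Adj x y)
    (hRQ : ∀ w, w.1 ≠ i₀ → ∀ i, Disjoint (R w) (Q i)) :
    IsMinor (subdivide (triangles t) (i₀, a) (i₀, b)) G := by
  classical
  have third : ∀ x y : Fin 3, x ≠ a → x ≠ b → y ≠ a → y ≠ b → x = y := by
    intro x y
    exact third_eq a b hab x y
  obtain ⟨idx, hidx⟩ : ∃ idx, idx = idxF a b := ⟨_, rfl⟩
  have idx_none : idx none = 1 := by rw [hidx]; rfl
  have idx_a : idx (some a) = 0 := by simp [hidx, idxF]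
  have idx_b : idx (some b) = 2 := by simp [hidx, idxF, hab.symm]
  have idx_c : ∀ x, x ≠ a → x ≠ b → idx (some x) = 3 := by
    intro x h1 h2; simp [hidx, idxF, h1, h2]
  have idx_inj : ∀ x y, idx x = idx y → x = y := by
    rw [hidx]; exact idxF_inj a b hab
  have qadj : ∀ i j : Fin 4, (j = i + 1 ∨ i = j + 1) → ∃ x ∈ Q i, ∃ y ∈ Q j, G.Adj x y := by
    intro i j h
    rcases h with rfl | rfl
    · exact q3 i
    · obtain ⟨x, hx, y, hy, hxy⟩ := q3 j
      exact ⟨y, hy, x, hx, hxy.symm⟩
  let B : Option (Fin t × Fin 3) → Set V := fun w =>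
    match w with
    | none => Q 1
    | some w => if w.1 = i₀ then Q (idx (some w.2)) else R w
  have B_none : B none = Q 1 := rfl
  have B_in : ∀ w : Fin t × Fin 3, w.1 = i₀ → B (some w) = Q (idx (some w.2)) := by
    intro w hw; simp only [B, hw, if_true]
  have B_out : ∀ w : Fin t × Fin 3, w.1 ≠ i₀ → B (some w) = R w := by
    intro w hw; simp only [B, hw, if_false]
  rw [isMinor_iff]
  refine ⟨B, ?_, ?_, ?_⟩
  · rintro (_ | w)
    · exact q1 1
    · by_cases hw : w.1 = i₀
      · rw [B_in w hw]; exact q1 _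
      · rw [B_out w hw]; exact r1 w hw
  · rintro (_ | w) (_ | w') hne
    · exact absurd rfl hne
    · by_cases hw : w'.1 = i₀
      · rw [B_in w' hw, B_none]
        apply q2
        intro h
        have h' : idx none = idx (some w'.2) := idx_none.trans h
        have := idx_inj _ _ h'
        cases this
      · rw [B_out w' hw, B_none]
        exact (hRQ w' hw 1).symm
    · by_cases hw : w.1 = i₀
      · rw [B_in w hw, B_none]
        apply q2
        intro h
        have h' : idx (some w.2) = idx none := h.trans idx_none.symm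
        have := idx_inj _ _ h'
        cases this
      · rw [B_out w hw, B_none]
        exact hRQ w hw 1
    · have hne' : w ≠ w' := fun h => hne (congrArg some h)
      by_cases hw : w.1 = i₀
      · by_cases hw' : w'.1 = i₀
        · rw [B_in w hw, B_in w' hw']
          apply q2
          intro h
          have := Option.some_injective _ (idx_inj _ _ h)
          exact hne' (Prod.ext (hw.trans hw'.symm) this)
        · rw [B_in w hw, B_out w' hw']
          exact (hRQ w' hw' _).symm
      · by_cases hw' : w'.1 = i₀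
        · rw [B_out w hw, B_in w' hw']
          exact hRQ w hw _
        · rw [B_out w hw, B_out w' hw']
          exact r2 w w' hw hw' hne'
  · rintro (_ | w) (_ | w') hadj
    · exact absurd hadj (fun h => h)
    · have h : w' = (i₀, a) ∨ w' = (i₀, b) := hadj
      rcases h with rfl | rfl
      · rw [B_none, B_in _ rfl]
        apply qadj
        right
        show (1 : Fin 4) = idx (some a) + 1
        rw [idx_a]; rfl
      · rw [B_none, B_in _ rfl]
        apply qadj
        left
        show idx (some b) = 1 + 1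
        rw [idx_b]; rfl
    · have h : w = (i₀, a) ∨ w = (i₀, b) := hadj
      rcases h with rfl | rfl
      · rw [B_none, B_in _ rfl]
        apply qadj
        left
        show (1 : Fin 4) = idx (some a) + 1
        rw [idx_a]; rfl
      · rw [B_none, B_in _ rfl]
        apply qadj
        right
        show idx (some b) = 1 + 1
        rw [idx_b]; rfl
    · obtain ⟨⟨h1, h2⟩, h3⟩ : (w.1 = w'.1 ∧ w.2 ≠ w'.2) ∧ s(w, w') ≠ s((i₀, a), (i₀, b)) := hadj
      by_cases hw : w.1 = i₀
      · have hw' : w'.1 = i₀ := h1 ▸ hw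
        rw [B_in w hw, B_in w' hw']
        apply qadj
        obtain ⟨i, x⟩ := w
        obtain ⟨j, y⟩ := w'
        simp only at hw hw' h2
        subst hw
        subst hw'
        show idx (some y) = idx (some x) + 1 ∨ idx (some x) = idx (some y) + 1
        by_cases hx1 : x = a
        · have hy1 : y ≠ a := fun h => h2 (hx1.trans h.symm)
          have hy2 : y ≠ b := by
            rintro rfl
            apply h3
            rw [hx1]
          rw [hx1, idx_a, idx_c y hy1 hy2]
          right; rfl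
        · by_cases hx2 : x = b
          · have hy1 : y ≠ b := fun h => h2 (hx2.trans h.symm)
            have hy2 : y ≠ a := by
              rintro rfl
              apply h3
              rw [hx2, Sym2.eq_swap]
            rw [hx2, idx_b, idx_c y hy2 hy1]
            left; rfl
          · rw [idx_c x hx1 hx2]
            by_cases hy1 : y = a
            · rw [hy1, idx_a]; left; rfl
            · by_cases hy2 : y = b
              · rw [hy2, idx_b]; right; rfl
              · exact absurd (third x y hx1 hx2 hy1 hy2) h2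
      · have hw' : w'.1 ≠ i₀ := h1 ▸ hw
        rw [B_out w hw, B_out w' hw']
        exact r3 w w' hw hw' ⟨h1, h2⟩

/-- If `k ≥ 3 t` forces `t` disjoint triangles as a minor, then it also forces the graph obtained
by subdividing an edge. -/
theorem forces_subdivide {t : ℕ} (i₀ : Fin t) (a b : Fin 3) (hab : a ≠ b) (k : ℕ)
    (hk : 3 * t ≤ k) (h : Forces (triangles t) k) :
    Forces (subdivide (triangles t) (i₀, a) (i₀, b)) k := by
  classical
  intro V _ _ G hG
  have hmin := h V G hG
  rw [isMinor_iff] at hmin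
  obtain ⟨B, b1, b2, b3⟩ := hmin
  have dich : ∀ i : Fin t, HasC4 G (⋃ l, B (i, l)) ∨
      ∃ x : Fin 3 → V, (∀ l, x l ∈ B (i, l)) ∧ ∀ l m, l ≠ m → G.Adj (x l) (x m) := by
    intro i
    refine hasC4_or_triangle (B := fun l => B (i, l)) (fun l => b1 _) ?_ ?_
    · intro l m hlm
      exact b2 _ _ (fun h => hlm (congrArg Prod.snd h))
    · intro l m hlm
      exact b3 _ _ ⟨rfl, hlm⟩
  by_cases hc4 : ∃ i, HasC4 G (⋃ l, B (i, l))
  · obtain ⟨i, Q, q0, q1, q2, q3⟩ := hc4
    have hsw : ∀ j, j ≠ i₀ → Equiv.swap i₀ i j ≠ i := by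
      intro j hj h
      apply hj
      have := congrArg (Equiv.swap i₀ i) h
      rw [Equiv.swap_apply_self, Equiv.swap_apply_right] at this
      exact this
    refine build G i₀ a b hab (fun w => B (Equiv.swap i₀ i w.1, w.2)) ?_ ?_ ?_ Q q1 q2 q3 ?_
    · intro w _; exact b1 _
    · intro w w' _ _ hne
      apply b2
      intro h
      apply hne
      have e1 := congrArg Prod.fst h
      have e2 := congrArg Prod.snd h
      exact Prod.ext ((Equiv.swap i₀ i).injective e1) e2
    · intro w w' _ _ hadj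
      exact b3 _ _ ⟨congrArg (Equiv.swap i₀ i) hadj.1, hadj.2⟩
    · intro w hw j
      rw [Set.disjoint_left]
      intro x hx hxQ
      have hx' := q0 j hxQ
      rw [Set.mem_iUnion] at hx'
      obtain ⟨l, hl⟩ := hx'
      have hne : (Equiv.swap i₀ i w.1, w.2) ≠ (i, l) := fun h => hsw w.1 hw (congrArg Prod.fst h)
      exact Set.disjoint_left.1 (b2 _ _ hne) hx hl
  · push Not at hc4
    have htri := fun i => (dich i).resolve_left (hc4 i)
    choose x hx1 hx2 using htri
    -- the deleted vertices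
    let X : Finset V := ((Finset.univ.filter (fun i : Fin t => i ≠ i₀)) ×ˢ
      (Finset.univ : Finset (Fin 3))).image (fun w => x w.1 w.2)
    have hXcard : X.card + 3 ≤ 3 * t := by
      have h1 : X.card ≤ _ := Finset.card_image_le
      rw [Finset.card_product, Finset.card_univ, Fintype.card_fin] at h1
      have h2 : (Finset.univ.filter (fun i : Fin t => i ≠ i₀)).card = t - 1 := by
        rw [Finset.filter_ne' Finset.univ i₀, Finset.card_erase_of_mem (Finset.mem_univ _),
          Finset.card_univ, Fintype.card_fin]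
      rw [h2] at h1
      have h3 : 0 < t := i₀.pos
      omega
    have hXmem : ∀ i l, i ≠ i₀ → x i l ∈ X := by
      intro i l hi
      refine Finset.mem_image.2 ⟨(i, l), ?_, rfl⟩
      simp [hi]
    have hnw : ¬ HasWidth (G.induce {v | v ∉ X}) 2 := by
      intro hw
      have h1 := hasWidth_of_compl G X 2 hw
      rw [← treewidth_le_iff] at h1
      omega
    have hC := hasC4_of_not_hasWidth _ hnw
    obtain ⟨Q, -, q1, q2, q3⟩ := hC
    refine build G i₀ a b hab (fun w => {x w.1 w.2}) ?_ ?_ ?_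
      (fun i => (fun z : {v | v ∉ X} => z.1) '' Q i) ?_ ?_ ?_ ?_
    · intro w _; exact SC.singleton _ _
    · intro w w' _ _ hne
      rw [Set.disjoint_singleton]
      intro h
      have h1 := hx1 w.1 w.2
      have h2 := hx1 w'.1 w'.2
      rw [h] at h1
      exact Set.disjoint_left.1 (b2 _ _ hne) h1 h2
    · intro w w' _ _ hadj
      refine ⟨_, rfl, _, rfl, ?_⟩
      obtain ⟨h1, h2⟩ := hadj
      obtain ⟨i, l⟩ := w
      obtain ⟨j, m⟩ := w'
      simp only at h1 h2 ⊢
      subst h1
      exact hx2 i l m h2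
    · intro i
      exact SC.image (G' := G.induce {v | v ∉ X}) (fun z : {v | v ∉ X} => z.1)
        (fun _ _ h => h) (q1 i)
    · intro i j hij
      exact Set.disjoint_image_of_injective Subtype.val_injective (q2 i j hij)
    · intro i
      obtain ⟨y, hy, z, hz, hyz⟩ := q3 i
      exact ⟨y.1, ⟨y, hy, rfl⟩, z.1, ⟨z, hz, rfl⟩, hyz⟩
    · intro w hw i
      rw [Set.disjoint_singleton_left]
      rintro ⟨z, -, hz⟩
      apply z.2
      show z.1 ∈ X
      have hz' : z.1 = x w.1 w.2 := hz
      rw [hz']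
      exact hXmem _ _ hw

/-- Old vertices form a minor of the subdivided graph. -/
theorem isMinor_subdivide {W : Type} (H : SimpleGraph W) (u v : W) :
    IsMinor H (subdivide H u v) := by
  classical
  rw [isMinor_iff]
  obtain ⟨B, hB⟩ : ∃ B : W → Set (Option W),
      B = fun w => if w = u then {some w} ∪ {none} else {some w} := ⟨_, rfl⟩
  have B_u : ∀ w, w = u → B w = {some w} ∪ {none} := by
    intro w hw; simp only [hB, hw, if_true]
  have B_n : ∀ w, w ≠ u → B w = {some w} := by
    intro w hw; simp only [hB, hw, if_false]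
  have hself : ∀ w, some w ∈ B w := by
    intro w
    by_cases hw : w = u
    · rw [B_u w hw]; exact Or.inl rfl
    · rw [B_n w hw]; rfl
  refine ⟨B, ?_, ?_, ?_⟩
  · intro w
    by_cases hw : w = u
    · rw [B_u w hw]
      exact SC.union_adj (SC.singleton _ _) (SC.singleton _ _) (a := some w) (b := none) rfl rfl
        (Or.inl hw)
    · rw [B_n w hw]
      exact SC.singleton _ _
  · intro w w' hne
    rw [Set.disjoint_left]
    intro z hz hz'
    by_cases hw : w = u
    · have hw' : w' ≠ u := fun h => hne (hw.trans h.symm)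
      rw [B_u w hw] at hz
      rw [B_n w' hw', Set.mem_singleton_iff] at hz'
      rcases hz with h | h
      · have h' : z = some w := h
        exact hne (Option.some_injective _ (h'.symm.trans hz'))
      · have h' : z = none := h
        rw [hz'] at h'
        cases h'
    · rw [B_n w hw, Set.mem_singleton_iff] at hz
      by_cases hw' : w' = u
      · rw [B_u w' hw'] at hz'
        rcases hz' with h | h
        · have h' : z = some w' := h
          exact hne (Option.some_injective _ (hz.symm.trans h'))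
        · have h' : z = none := h
          rw [hz] at h'
          cases h'
      · rw [B_n w' hw', Set.mem_singleton_iff] at hz'
        exact hne (Option.some_injective _ (hz.symm.trans hz'))
  · intro w w' hadj
    by_cases he : s(w, w') = s(u, v)
    · rw [Sym2.eq_iff] at he
      rcases he with ⟨h1, h2⟩ | ⟨h1, h2⟩
      · refine ⟨none, ?_, some w', hself w', Or.inr h2⟩
        rw [B_u w h1]; exact Or.inr rfl
      · refine ⟨some w, hself w, none, ?_, Or.inr h1⟩
        rw [B_u w' h2]; exact Or.inr rfl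
    · exact ⟨some w, hself w, some w', hself w', hadj, he⟩

end Pool.Agent.TreewidthMinor
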