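import Mathlib

set_option autoImplicit false

/-!
# Tree-decompositions, tree-width, minors, plane drawings, subdivisions

All notions below are the usual ones for finite simple graphs.
-/

namespace Pool.Agent.TreewidthMinor

/-- A tree-decomposition of the graph `G` whose tree has node set `ι`: a tree with a finite bag of
vertices of `G` at each node, such that the bags cover the vertices, each edge has both ends in
some bag, and for each vertex `v` the nodes whose bag contains `v` induce a connected subgraph of
the tree. -/
structure TreeDecomposition {V : Type} (G : SimpleGraph V) (ι : Type) where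
  /-- the tree -/
  tree : SimpleGraph ι
  /-- it is a tree -/
  isTree : tree.IsTree
  /-- the bags -/
  bag : ι → Finset V
  /-- the bags cover the vertices -/
  cover : ∀ v : V, ∃ t : ι, v ∈ bag t
  /-- the bags cover the edges -/
  edge : ∀ u v : V, G.Adj u v → ∃ t : ι, u ∈ bag t ∧ v ∈ bag t
  /-- the nodes whose bag contains a given vertex induce a connected subtree -/
  conn : ∀ v : V, (tree.induce {t : ι | v ∈ bag t}).Connected

/-- `G` has a tree-decomposition, over a finite tree, of width at most `k` (all bags have at most
`k + 1` elements). -/
def HasWidth {V : Type} (G : SimpleGraph V) (k : ℕ) : Prop :=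
  ∃ (ι : Type) (_ : Finite ι) (D : TreeDecomposition G ι), ∀ t : ι, (D.bag t).card ≤ k + 1

/-- The tree-width of `G`: the least width of a tree-decomposition. -/
noncomputable def treewidth {V : Type} (G : SimpleGraph V) : ℕ :=
  sInf {k : ℕ | HasWidth G k}

/-- `H` is a minor of `G`: there are pairwise disjoint vertex sets `B w` of `G`, one for each
vertex `w` of `H`, each inducing a connected (so nonempty) subgraph of `G`, with an edge of `G`
between `B w` and `B w'` whenever `w` and `w'` are adjacent in `H`. -/
def IsMinor {W V : Type} (H : SimpleGraph W) (G : SimpleGraph V) : Prop :=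
  ∃ B : W → Set V, (∀ w, (G.induce (B w)).Connected) ∧
    (∀ w w', w ≠ w' → Disjoint (B w) (B w')) ∧
    (∀ w w', H.Adj w w' → ∃ x ∈ B w, ∃ y ∈ B w', G.Adj x y)

/-- Every finite (nonempty) graph `G` with tree-width at least `k` contains `H` as a minor. -/
def Forces {W : Type} (H : SimpleGraph W) (k : ℕ) : Prop :=
  ∀ (V : Type) [Finite V] [Nonempty V] (G : SimpleGraph V), k ≤ treewidth G → IsMinor H G

/-- `IsThreshold H k` says `f(H) = k`: the number `k` is the least integer such that every graph
with tree-width at least `k` contains `H` as a minor. -/
def IsThreshold {W : Type} (H : SimpleGraph W) (k : ℕ) : Prop :=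
  IsLeast {k : ℕ | Forces H k} k

/-- `H` has a plane drawing whose edges are straight line segments: different vertices are placed
at different points of the plane, no vertex lies on an edge which does not end in it, and two edges
without a common end do not meet. (Two edges `uv` and `uw` with just one common end then meet only
in `u`.) -/
def HasStraightDrawing {W : Type} (H : SimpleGraph W) : Prop :=
  ∃ p : W → ℝ × ℝ, Function.Injective p ∧
    (∀ u v w, H.Adj u v → w ≠ u → w ≠ v → p w ∉ segment ℝ (p u) (p v)) ∧
    (∀ u v x y, H.Adj u v → H.Adj x y → u ≠ x → u ≠ y → v ≠ x → v ≠ y →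
      Disjoint (segment ℝ (p u) (p v)) (segment ℝ (p x) (p y)))

/-- The graph obtained from `H` by subdividing the edge `uv` once: the new vertex is `none`, the
old vertices are `some x`, the edge `uv` is replaced by the two edges from `none` to `u` and
to `v`. -/
def subdivide {W : Type} (H : SimpleGraph W) (u v : W) : SimpleGraph (Option W) where
  Adj
    | some x, some y => H.Adj x y ∧ s(x, y) ≠ s(u, v)
    | some x, none => x = u ∨ x = v
    | none, some y => y = u ∨ y = v
    | none, none => False
  symm := ⟨by
    rintro (_ | x) (_ | y) h
    · exact h
    · exact h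
    · exact h
    · exact ⟨h.1.symm, by rw [Sym2.eq_swap]; exact h.2⟩⟩
  loopless := ⟨by
    rintro (_ | x) h
    · exact h
    · exact H.irrefl h.1⟩

/-- The graph `t C₃`, consisting of `t` pairwise disjoint triangles: the vertices of the `i`-th
triangle are `(i, 0), (i, 1), (i, 2)`. -/
def triangles (t : ℕ) : SimpleGraph (Fin t × Fin 3) where
  Adj x y := x.1 = y.1 ∧ x.2 ≠ y.2
  symm := ⟨fun _ _ h => ⟨h.1.symm, h.2.symm⟩⟩
  loopless := ⟨fun _ h => h.2 rfl⟩

end Pool.Agent.TreewidthMinor
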