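import Pool.Agent.TreewidthMinor.SC

set_option autoImplicit false

/-!
# Dense graphs contain many disjoint triangles as a minor
-/

namespace Pool.Agent.TreewidthMinor

open SimpleGraph

variable {V : Type}

/-- The set of ordered adjacent pairs. -/
def dartSet (G : SimpleGraph V) : Set (V × V) := {x | G.Adj x.1 x.2}

/-- Contraction of `v` into `u`. -/
def contr (G : SimpleGraph V) (u v : V) : SimpleGraph {x : V // x ≠ v} where
  Adj x y := x ≠ y ∧ (G.Adj x.1 y.1 ∨ (x.1 = u ∧ G.Adj v y.1) ∨ (y.1 = u ∧ G.Adj v x.1))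
  symm := ⟨fun x y h => by
    obtain ⟨h1, h2⟩ := h
    refine ⟨h1.symm, ?_⟩
    rcases h2 with h2 | h2 | h2
    · exact Or.inl h2.symm
    · exact Or.inr (Or.inr h2)
    · exact Or.inr (Or.inl h2)⟩
  loopless := ⟨fun x h => h.1 rfl⟩

theorem isMinor_contr (G : SimpleGraph V) (u v : V) (huv : G.Adj u v) :
    IsMinor (contr G u v) G := by
  classical
  rw [isMinor_iff]
  obtain ⟨B, hB⟩ : ∃ B : {x : V // x ≠ v} → Set V,
      B = fun w => if w.1 = u then {w.1} ∪ {v} else {w.1} := ⟨_, rfl⟩
  have B_u : ∀ w : {x : V // x ≠ v}, w.1 = u → B w = {w.1} ∪ {v} := by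
    intro w hw; simp only [hB, hw, if_true]
  have B_n : ∀ w : {x : V // x ≠ v}, w.1 ≠ u → B w = {w.1} := by
    intro w hw; simp only [hB, hw, if_false]
  have hself : ∀ w, w.1 ∈ B w := by
    intro w
    by_cases hw : w.1 = u
    · rw [B_u w hw]; exact Or.inl rfl
    · rw [B_n w hw]; rfl
  have hv : ∀ w : {x : V // x ≠ v}, w.1 = u → v ∈ B w := by
    intro w hw
    rw [B_u w hw]; exact Or.inr rfl
  refine ⟨B, ?_, ?_, ?_⟩
  · intro w
    by_cases hw : w.1 = u
    · rw [B_u w hw]
      exact SC.union_adj (SC.singleton _ _) (SC.singleton _ _) (a := w.1) (b := v) rfl rfl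
        (hw ▸ huv)
    · rw [B_n w hw]
      exact SC.singleton _ _
  · intro w w' hne
    have hne' : w.1 ≠ w'.1 := fun h => hne (Subtype.ext h)
    rw [Set.disjoint_left]
    intro z hz hz'
    by_cases hw : w.1 = u
    · have hw' : w'.1 ≠ u := fun h => hne' (hw.trans h.symm)
      rw [B_u w hw] at hz
      rw [B_n w' hw', Set.mem_singleton_iff] at hz'
      rcases hz with h | h
      · have h' : z = w.1 := h
        exact hne' (h'.symm.trans hz')
      · have h' : z = v := h
        exact w'.2 (hz'.symm.trans h')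
    · rw [B_n w hw, Set.mem_singleton_iff] at hz
      by_cases hw' : w'.1 = u
      · rw [B_u w' hw'] at hz'
        rcases hz' with h | h
        · have h' : z = w'.1 := h
          exact hne' (hz.symm.trans h')
        · have h' : z = v := h
          exact w.2 (hz.symm.trans h')
      · rw [B_n w' hw', Set.mem_singleton_iff] at hz'
        exact hne' (hz.symm.trans hz')
  · rintro w w' ⟨-, h | h | h⟩
    · exact ⟨w.1, hself w, w'.1, hself w', h⟩
    · exact ⟨v, hv w h.1, w'.1, hself w', h.2⟩
    · exact ⟨w.1, hself w, v, hv w' h.1, h.2.symm⟩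

theorem ncard_dartSet_contr [Finite V] (G : SimpleGraph V) (u v : V) (huv : G.Adj u v) :
    (dartSet G).ncard ≤ (dartSet (contr G u v)).ncard + 2 +
      2 * {w | G.Adj u w ∧ G.Adj v w}.ncard := by
  classical
  -- the exceptional darts
  let C : Set V := {w | G.Adj u w ∧ G.Adj v w}
  let E : Set (V × V) := {(u, v), (v, u)} ∪ ((fun w => (v, w)) '' C ∪ (fun w => (w, v)) '' C)
  have hE : E.ncard ≤ 2 + 2 * C.ncard := by
    have h1 : E.ncard ≤ ({(u, v), (v, u)} : Set (V × V)).ncard +
        ((fun w => (v, w)) '' C ∪ (fun w => (w, v)) '' C).ncard := Set.ncard_union_le _ _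
    have h2 : ({(u, v), (v, u)} : Set (V × V)).ncard ≤ 2 := (Set.ncard_insert_le _ _).trans (by rw [Set.ncard_singleton])
    have h3 : ((fun w => (v, w)) '' C ∪ (fun w => (w, v)) '' C).ncard ≤
        ((fun w => (v, w)) '' C).ncard + ((fun w => (w, v)) '' C).ncard := Set.ncard_union_le _ _
    have h4 : ((fun w => (v, w)) '' C).ncard ≤ C.ncard := Set.ncard_image_le (Set.toFinite _)
    have h5 : ((fun w => (w, v)) '' C).ncard ≤ C.ncard := Set.ncard_image_le (Set.toFinite _)
    omega
  -- the map on the other darts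
  let φ : V → V := fun x => if x = v then u else x
  have hφv : φ v = u := by simp [φ]
  have hφ : ∀ x, x ≠ v → φ x = x := fun x hx => by simp [φ, hx]
  have huv' : u ≠ v := huv.ne
  have hφne : ∀ x, φ x ≠ v := by
    intro x
    by_cases hx : x = v
    · rw [hx, hφv]; exact huv'
    · rw [hφ x hx]; exact hx
  let Φ : V × V → {x : V // x ≠ v} × {x : V // x ≠ v} :=
    fun x => (⟨φ x.1, hφne _⟩, ⟨φ x.2, hφne _⟩)
  have hmap : ∀ x ∈ dartSet G \ E, Φ x ∈ dartSet (contr G u v) := by
    rintro ⟨x, y⟩ ⟨hxy, hE'⟩
    have hadj : G.Adj x y := hxy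
    have hnE : (x, y) ∉ E := hE'
    show (contr G u v).Adj ⟨φ x, hφne _⟩ ⟨φ y, hφne _⟩
    by_cases hx : x = v
    · subst hx
      have hy : y ≠ x := hadj.ne'
      have hyu : y ≠ u := by
        rintro rfl
        exact hnE (Or.inl (Or.inr rfl))
      refine ⟨?_, Or.inr (Or.inl ⟨hφv, ?_⟩)⟩
      · intro h
        have := congrArg Subtype.val h
        simp only [hφv, hφ y hy] at this
        exact hyu this.symm
      · show G.Adj x (φ y)
        rw [hφ y hy]; exact hadj
    · by_cases hy : y = v
      · subst hy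
        have hxu : x ≠ u := by
          rintro rfl
          exact hnE (Or.inl (Or.inl rfl))
        refine ⟨?_, Or.inr (Or.inr ⟨hφv, ?_⟩)⟩
        · intro h
          have := congrArg Subtype.val h
          simp only [hφv, hφ x hx] at this
          exact hxu this
        · show G.Adj y (φ x)
          rw [hφ x hx]; exact hadj.symm
      · refine ⟨?_, Or.inl ?_⟩
        · intro h
          have := congrArg Subtype.val h
          simp only [hφ x hx, hφ y hy] at this
          exact hadj.ne this
        · show G.Adj (φ x) (φ y)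
          rw [hφ x hx, hφ y hy]; exact hadj
  have hinj : Set.InjOn Φ (dartSet G \ E) := by
    rintro ⟨x, y⟩ ⟨hxy, hE1⟩ ⟨x', y'⟩ ⟨hxy', hE2⟩ h
    have hadj : G.Adj x y := hxy
    have hadj' : G.Adj x' y' := hxy'
    have hn : (x, y) ∉ E := hE1
    have hn' : (x', y') ∉ E := hE2
    have e1 : φ x = φ x' := congrArg (fun z => z.1.1) h
    have e2 : φ y = φ y' := congrArg (fun z => z.2.1) h
    -- a dart from `v` and one from `u` cannot be identified
    have aux : ∀ a b : V, G.Adj v a → G.Adj u b → φ a = φ b → (v, a) ∉ E → (u, b) ∉ E → False := by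
      intro a b ha hb hab hva hub
      have ha' : a ≠ v := ha.ne'
      have hb' : b ≠ v := by
        rintro rfl
        exact hub (Or.inl (Or.inl rfl))
      rw [hφ a ha', hφ b hb'] at hab
      subst hab
      exact hva (Or.inr (Or.inl ⟨a, ⟨hb, ha⟩, rfl⟩))
    have aux2 : ∀ a b : V, G.Adj a v → G.Adj b u → φ a = φ b → (a, v) ∉ E → (b, u) ∉ E → False := by
      intro a b ha hb hab hva hub
      have ha' : a ≠ v := ha.ne
      have hb' : b ≠ v := by
        rintro rfl
        exact hub (Or.inl (Or.inr rfl))
      rw [hφ a ha', hφ b hb'] at hab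
      subst hab
      exact hva (Or.inr (Or.inr ⟨a, ⟨hb.symm, ha.symm⟩, rfl⟩))
    have ex : x = x' := by
      by_cases hx : x = v
      · by_cases hx' : x' = v
        · rw [hx, hx']
        · exfalso
          have : x' = u := by rw [hx, hφv, hφ x' hx'] at e1; exact e1.symm
          subst hx; subst this
          exact aux y y' hadj hadj' e2 hn hn'
      · by_cases hx' : x' = v
        · exfalso
          have : x = u := by rw [hx', hφv, hφ x hx] at e1; exact e1
          subst hx'; subst this
          exact aux y' y hadj' hadj e2.symm hn' hn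
        · rw [hφ x hx, hφ x' hx'] at e1; exact e1
    have ey : y = y' := by
      by_cases hy : y = v
      · by_cases hy' : y' = v
        · rw [hy, hy']
        · exfalso
          have : y' = u := by rw [hy, hφv, hφ y' hy'] at e2; exact e2.symm
          subst hy; subst this
          exact aux2 x x' hadj hadj' e1 hn hn'
      · by_cases hy' : y' = v
        · exfalso
          have : y = u := by rw [hy', hφv, hφ y hy] at e2; exact e2
          subst hy'; subst this
          exact aux2 x' x hadj' hadj e1.symm hn' hn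
        · rw [hφ y hy, hφ y' hy'] at e2; exact e2
    rw [ex, ey]
  have h1 := Set.ncard_le_ncard_of_injOn Φ hmap hinj (Set.toFinite _)
  have h2 : (dartSet G).ncard ≤ (dartSet G \ E).ncard + E.ncard := by
    have := Set.ncard_le_ncard_sdiff_add_ncard (dartSet G) E (Set.toFinite _)
    exact this
  show _ ≤ _ + 2 + 2 * C.ncard
  omega

/-- A dense graph has a minor in which every edge lies in many triangles. -/
theorem exists_minor_triangles (d : ℕ) :
    ∀ (n : ℕ) (V : Type) [Finite V] [Nonempty V] (G : SimpleGraph V), Nat.card V = n →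
      2 * d * Nat.card V ≤ (dartSet G).ncard →
      ∃ (V' : Type) (_ : Finite V') (_ : Nonempty V') (G' : SimpleGraph V'), IsMinor G' G ∧
        2 * d * Nat.card V' ≤ (dartSet G').ncard ∧
        ∀ u v : V', G'.Adj u v → d ≤ {w | G'.Adj u w ∧ G'.Adj v w}.ncard := by
  intro n
  induction n with
  | zero =>
    intro V _ _ G hn _
    have := Nat.card_pos (α := V)
    omega
  | succ n ih =>
    intro V _ hne G hn hG
    by_cases hall : ∀ u v : V, G.Adj u v → d ≤ {w | G.Adj u w ∧ G.Adj v w}.ncard
    · exact ⟨V, inferInstance, hne, G, isMinor_of_inj id Function.injective_id (fun _ _ h => h),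
        hG, hall⟩
    · push Not at hall
      obtain ⟨u, v, huv, hlt⟩ := hall
      have hcard : Nat.card {x : V // x ≠ v} = n := by
        have := Fintype.ofFinite V
        classical
        rw [Nat.card_eq_fintype_card] at hn ⊢
        have h1 := Fintype.card_subtype_compl (fun x : V => x = v)
        have h2 : Fintype.card {x : V // x = v} = 1 := Fintype.card_subtype_eq v
        rw [h2, hn] at h1
        exact h1
      have hne' : Nonempty {x : V // x ≠ v} := ⟨⟨u, huv.ne⟩⟩
      have h1 := ncard_dartSet_contr G u v huv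
      have h2 : 2 * d * Nat.card {x : V // x ≠ v} ≤ (dartSet (contr G u v)).ncard := by
        rw [hcard]
        rw [hn] at hG
        have : 2 * d * (n + 1) = 2 * d * n + 2 * d := by ring
        omega
      obtain ⟨V', hV', hne'', G', g1, g2, g3⟩ := ih {x : V // x ≠ v} (contr G u v) hcard h2
      exact ⟨V', hV', hne'', G', g1.trans (isMinor_contr G u v huv), g2, g3⟩

/-- Greedy choice of disjoint triangles. -/
theorem exists_triangles [Finite V] (G : SimpleGraph V) (s d : ℕ) (hsd : 3 * s ≤ d)
    (a b : V) (hab : G.Adj a b)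
    (hG : ∀ u v : V, G.Adj u v → d ≤ {w | G.Adj u w ∧ G.Adj v w}.ncard) :
    ∀ j ≤ s, ∃ f : Fin j × Fin 3 → V, Function.Injective f ∧
      ∀ i l m, l ≠ m → G.Adj (f (i, l)) (f (i, m)) := by
  classical
  intro j
  induction j with
  | zero =>
    intro _
    exact ⟨fun x => x.1.elim0, fun x => x.1.elim0, fun i => i.elim0⟩
  | succ j ih =>
    intro hj
    obtain ⟨f, hf, hfa⟩ := ih (by omega)
    have hrange : (Set.range f).ncard = 3 * j := by
      rw [← Set.image_univ, Set.ncard_image_of_injective _ hf, Set.ncard_univ,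
        Nat.card_eq_fintype_card, Fintype.card_prod, Fintype.card_fin, Fintype.card_fin, mul_comm]
    have hpick : ∀ u v : V, G.Adj u v → ∃ w, G.Adj u w ∧ G.Adj v w ∧ w ∉ Set.range f := by
      intro u v huv
      have h1 := hG u v huv
      have h2 : (Set.range f).ncard < {w | G.Adj u w ∧ G.Adj v w}.ncard := by omega
      obtain ⟨w, hw1, hw2⟩ := Set.exists_mem_notMem_of_ncard_lt_ncard h2
      exact ⟨w, hw1.1, hw1.2, hw2⟩
    obtain ⟨c, hac, -, hc⟩ := hpick a b hab
    obtain ⟨w, haw, hcw, hw⟩ := hpick a c hac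
    obtain ⟨z, hcz, hwz, hz⟩ := hpick c w hcw
    let g : Fin 3 → V := ![c, w, z]
    have hg : ∀ l, g l ∉ Set.range f := by
      intro l; fin_cases l
      · exact hc
      · exact hw
      · exact hz
    have hga : ∀ l m, l ≠ m → G.Adj (g l) (g m) := by
      intro l m hlm
      fin_cases l <;> fin_cases m
      · exact absurd rfl hlm
      · exact hcw
      · exact hcz
      · exact hcw.symm
      · exact absurd rfl hlm
      · exact hwz
      · exact hcz.symm
      · exact hwz.symm
      · exact absurd rfl hlm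
    let F : Fin (j + 1) × Fin 3 → V := fun x =>
      if h : x.1.val < j then f (⟨x.1.val, h⟩, x.2) else g x.2
    have F1 : ∀ (i : Fin (j + 1)) (l : Fin 3) (h : i.val < j), F (i, l) = f (⟨i.val, h⟩, l) := by
      intro i l h; simp only [F, h, dif_pos]
    have F2 : ∀ (i : Fin (j + 1)) (l : Fin 3), ¬ i.val < j → F (i, l) = g l := by
      intro i l h; simp only [F, h, dif_neg, not_false_eq_true]
    refine ⟨F, ?_, ?_⟩
    · rintro ⟨i, l⟩ ⟨i', l'⟩ h
      by_cases hi : i.val < j
      · by_cases hi' : i'.val < j
        · rw [F1 i l hi, F1 i' l' hi'] at h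
          have h' := hf h
          rw [Prod.mk.injEq, Fin.mk.injEq] at h'
          exact Prod.ext (Fin.ext h'.1) h'.2
        · rw [F1 i l hi, F2 i' l' hi'] at h
          exact absurd ⟨_, h⟩ (hg l')
      · by_cases hi' : i'.val < j
        · rw [F2 i l hi, F1 i' l' hi'] at h
          exact absurd ⟨_, h.symm⟩ (hg l)
        · rw [F2 i l hi, F2 i' l' hi'] at h
          have hii : i = i' := Fin.ext (by omega)
          have hll : l = l' := by
            by_contra hne
            have := hga l l' hne
            rw [h] at this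
            exact G.irrefl this
          rw [hii, hll]
    · intro i l m hlm
      by_cases hi : i.val < j
      · rw [F1 i l hi, F1 i m hi]
        exact hfa _ _ _ hlm
      · rw [F2 i l hi, F2 i m hi]
        exact hga l m hlm

/-- A dense graph has `s` disjoint triangles as a minor. -/
theorem triangles_minor_of_dense [Finite V] [Nonempty V] (G : SimpleGraph V) (s : ℕ)
    (hG : 2 * (3 * s + 1) * Nat.card V ≤ (dartSet G).ncard) : IsMinor (triangles s) G := by
  obtain ⟨V', hV', hne, G', h1, h2, h3⟩ :=
    exists_minor_triangles (3 * s + 1) (Nat.card V) V G rfl hG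
  have hpos : 0 < Nat.card V' := Nat.card_pos
  have hd : (dartSet G').ncard ≠ 0 := by
    have : 0 < 2 * (3 * s + 1) * Nat.card V' := by positivity
    omega
  obtain ⟨⟨a, b⟩, hab⟩ := Set.nonempty_of_ncard_ne_zero hd
  obtain ⟨f, hf, hfa⟩ := exists_triangles G' s (3 * s + 1) (by omega) a b hab h3 s le_rfl
  refine IsMinor.trans (isMinor_of_inj f hf ?_) h1
  rintro ⟨i, l⟩ ⟨i', m⟩ ⟨e1, e2⟩
  simp only at e1 e2
  subst e1
  exact hfa i l m e2

end Pool.Agent.TreewidthMinor
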