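import Pool.Agent.TreewidthMinor.Defs

set_option autoImplicit false

/-!
# Connected vertex sets
-/

namespace Pool.Agent.TreewidthMinor

open SimpleGraph

variable {V V' W : Type}

/-- A vertex set is connected: nonempty and any two vertices are joined by a walk inside. -/
def SC (G : SimpleGraph V) (S : Set V) : Prop :=
  S.Nonempty ∧ ∀ x ∈ S, ∀ y ∈ S, ∃ w : G.Walk x y, ∀ z ∈ w.support, z ∈ S

theorem sc_of_connected {G : SimpleGraph V} {S : Set V} (h : (G.induce S).Connected) : SC G S := by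
  obtain ⟨⟨x0, hx0⟩⟩ := h.nonempty
  refine ⟨⟨x0, hx0⟩, ?_⟩
  have key : ∀ (a b : S) (_ : (G.induce S).Walk a b),
      ∃ w' : G.Walk a.1 b.1, ∀ z ∈ w'.support, z ∈ S := by
    intro a b w
    induction w with
    | nil =>
      rename_i a
      refine ⟨Walk.nil, ?_⟩
      intro z hz
      rw [Walk.support_nil, List.mem_singleton] at hz
      rw [hz]; exact a.2
    | cons h p ih =>
      rename_i a b c
      obtain ⟨w', hw'⟩ := ih
      have h' : G.Adj a.1 b.1 := h
      refine ⟨Walk.cons h' w', ?_⟩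
      intro z hz
      rw [Walk.support_cons, List.mem_cons] at hz
      rcases hz with rfl | hz
      · exact a.2
      · exact hw' z hz
  intro x hx y hy
  obtain ⟨w⟩ := h.preconnected ⟨x, hx⟩ ⟨y, hy⟩
  exact key _ _ w

theorem connected_of_sc {G : SimpleGraph V} {S : Set V} (h : SC G S) : (G.induce S).Connected := by
  obtain ⟨⟨x0, hx0⟩, h⟩ := h
  have key : ∀ (a b : V) (w : G.Walk a b) (hw : ∀ z ∈ w.support, z ∈ S),
      (G.induce S).Reachable ⟨a, hw a w.start_mem_support⟩ ⟨b, hw b w.end_mem_support⟩ := by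
    intro a b w
    induction w with
    | nil => intro hw; exact Reachable.refl _
    | cons h p ih =>
      rename_i a b c
      intro hw
      have hw' : ∀ z ∈ p.support, z ∈ S := by
        intro z hz
        apply hw
        rw [Walk.support_cons, List.mem_cons]
        exact Or.inr hz
      have hadj : (G.induce S).Adj ⟨a, hw a (by simp)⟩ ⟨b, hw' b p.start_mem_support⟩ := h
      exact hadj.reachable.trans (ih hw')
  have hne : Nonempty S := ⟨⟨x0, hx0⟩⟩
  refine ⟨?_⟩
  rintro ⟨x, hx⟩ ⟨y, hy⟩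
  obtain ⟨w, hw⟩ := h x hx y hy
  exact key x y w hw

theorem sc_iff {G : SimpleGraph V} {S : Set V} : (G.induce S).Connected ↔ SC G S :=
  ⟨sc_of_connected, connected_of_sc⟩

theorem SC.singleton (G : SimpleGraph V) (x : V) : SC G {x} := by
  refine ⟨⟨x, rfl⟩, ?_⟩
  rintro a rfl b rfl
  refine ⟨Walk.nil, ?_⟩
  intro z hz
  rw [Walk.support_nil, List.mem_singleton] at hz
  exact hz

theorem SC.support {G : SimpleGraph V} {u v : V} (w : G.Walk u v) : SC G {x | x ∈ w.support} :=
  sc_of_connected (Walk.connected_induce_support w)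

/-- Union of a family of connected sets indexed by a connected set. -/
theorem SC.biUnion {G : SimpleGraph V} {G' : SimpleGraph V'} {B : V' → Set V} {S : Set V'}
    (hS : SC G' S) (hB : ∀ x ∈ S, SC G (B x))
    (hadj : ∀ x ∈ S, ∀ y ∈ S, G'.Adj x y → ∃ a ∈ B x, ∃ b ∈ B y, G.Adj a b) :
    SC G (⋃ x ∈ S, B x) := by
  obtain ⟨⟨x0, hx0⟩, hS⟩ := hS
  have hne : (⋃ x ∈ S, B x).Nonempty := by
    obtain ⟨a, ha⟩ := (hB x0 hx0).1
    exact ⟨a, Set.mem_biUnion hx0 ha⟩
  have key : ∀ (x y : V') (w : G'.Walk x y) (_ : ∀ z ∈ w.support, z ∈ S) (a b : V),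
      a ∈ B x → b ∈ B y → ∃ w' : G.Walk a b, ∀ z ∈ w'.support, z ∈ ⋃ x ∈ S, B x := by
    intro x y w
    induction w with
    | nil =>
      rename_i x
      intro hw a b ha hb
      have hx : x ∈ S := hw x (by simp)
      obtain ⟨w', hw'⟩ := (hB x hx).2 a ha b hb
      exact ⟨w', fun z hz => Set.mem_biUnion hx (hw' z hz)⟩
    | cons h p ih =>
      rename_i x y c
      intro hw a b ha hb
      have hx : x ∈ S := hw x (by simp)
      have hw' : ∀ z ∈ p.support, z ∈ S := by
        intro z hz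
        apply hw
        rw [Walk.support_cons, List.mem_cons]
        exact Or.inr hz
      have hy : y ∈ S := hw' y p.start_mem_support
      obtain ⟨a1, ha1, b1, hb1, hab⟩ := hadj x hx y hy h
      obtain ⟨w1, hw1⟩ := (hB x hx).2 a ha a1 ha1
      obtain ⟨w2, hw2⟩ := ih hw' b1 b hb1 hb
      refine ⟨w1.append (Walk.cons hab w2), ?_⟩
      intro z hz
      rw [Walk.mem_support_append_iff, Walk.support_cons, List.mem_cons] at hz
      rcases hz with hz | rfl | hz
      · exact Set.mem_biUnion hx (hw1 z hz)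
      · exact Set.mem_biUnion hx ha1
      · exact hw2 z hz
  refine ⟨hne, ?_⟩
  intro a ha b hb
  rw [Set.mem_iUnion₂] at ha hb
  obtain ⟨x, hx, ha⟩ := ha
  obtain ⟨y, hy, hb⟩ := hb
  obtain ⟨w, hw⟩ := hS x hx y hy
  exact key x y w hw a b ha hb

theorem SC.union_adj {G : SimpleGraph V} {S T : Set V} (hS : SC G S) (hT : SC G T) {a b : V}
    (ha : a ∈ S) (hb : b ∈ T) (hab : G.Adj a b) : SC G (S ∪ T) := by
  have h := connected_induce_union (connected_of_sc hS).preconnected
    (connected_of_sc hT).preconnected ha hb hab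
  exact sc_of_connected h

/-- Minors with `SC`. -/
theorem isMinor_iff (H : SimpleGraph W) (G : SimpleGraph V) :
    IsMinor H G ↔ ∃ B : W → Set V, (∀ w, SC G (B w)) ∧
      (∀ w w', w ≠ w' → Disjoint (B w) (B w')) ∧
      (∀ w w', H.Adj w w' → ∃ x ∈ B w, ∃ y ∈ B w', G.Adj x y) := by
  unfold IsMinor
  constructor
  · rintro ⟨B, h1, h2, h3⟩
    exact ⟨B, fun w => sc_of_connected (h1 w), h2, h3⟩
  · rintro ⟨B, h1, h2, h3⟩
    exact ⟨B, fun w => connected_of_sc (h1 w), h2, h3⟩

theorem IsMinor.trans {H : SimpleGraph W} {G' : SimpleGraph V'} {G : SimpleGraph V}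
    (h : IsMinor H G') (h' : IsMinor G' G) : IsMinor H G := by
  rw [isMinor_iff] at *
  obtain ⟨B, h1, h2, h3⟩ := h
  obtain ⟨B', h1', h2', h3'⟩ := h'
  refine ⟨fun w => ⋃ x ∈ B w, B' x, ?_, ?_, ?_⟩
  · intro w
    exact SC.biUnion (h1 w) (fun x _ => h1' x) (fun x _ y _ hxy => h3' x y hxy)
  · intro w w' hw
    rw [Set.disjoint_left]
    intro a ha hb
    rw [Set.mem_iUnion₂] at ha hb
    obtain ⟨x, hx, ha⟩ := ha
    obtain ⟨y, hy, hb⟩ := hb
    have hxy : x = y := by
      by_contra hne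
      exact Set.disjoint_left.1 (h2' x y hne) ha hb
    subst hxy
    exact Set.disjoint_left.1 (h2 w w' hw) hx hy
  · intro w w' hw
    obtain ⟨x, hx, y, hy, hxy⟩ := h3 w w' hw
    obtain ⟨a, ha, b, hb, hab⟩ := h3' x y hxy
    exact ⟨a, Set.mem_biUnion hx ha, b, Set.mem_biUnion hy hb, hab⟩

/-- An injective homomorphism gives a minor. -/
theorem isMinor_of_inj {G' : SimpleGraph V'} {G : SimpleGraph V} (f : V' → V)
    (hf : Function.Injective f) (hadj : ∀ x y, G'.Adj x y → G.Adj (f x) (f y)) :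
    IsMinor G' G := by
  rw [isMinor_iff]
  refine ⟨fun x => {f x}, fun x => SC.singleton G _, ?_, ?_⟩
  · intro w w' hw
    rw [Set.disjoint_singleton]
    exact fun h => hw (hf h)
  · intro x y hxy
    exact ⟨f x, rfl, f y, rfl, hadj x y hxy⟩

/-- A connected set with two different marked points splits into two adjacent connected
parts containing the points. -/
theorem SC.split {G : SimpleGraph V} {S : Set V} (hS : SC G S) {x y : V} (hx : x ∈ S)
    (hy : y ∈ S) (hxy : x ≠ y) :
    ∃ Q : Set V, Q ⊆ S ∧ SC G Q ∧ y ∈ Q ∧ x ∉ Q ∧ ∃ q ∈ Q, G.Adj x q := by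
  classical
  obtain ⟨w, hw⟩ := hS.2 x hx y hy
  have hp : w.bypass.IsPath := w.bypass_isPath
  have hsub : ∀ z ∈ w.bypass.support, z ∈ S := fun z hz => hw z (w.support_bypass_subset_support hz)
  generalize w.bypass = p at hp hsub
  cases p with
  | nil => exact absurd rfl hxy
  | cons h q =>
    rename_i c
    rw [Walk.cons_isPath_iff] at hp
    refine ⟨{z | z ∈ q.support}, ?_, SC.support q, q.end_mem_support, hp.2, c,
      q.start_mem_support, h⟩
    intro z hz
    apply hsub
    rw [Walk.support_cons, List.mem_cons]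
    exact Or.inr hz

end Pool.Agent.TreewidthMinor
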