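import Pool.Agent.TreewidthMinor.Sep
import Pool.Agent.TreewidthMinor.SC

set_option autoImplicit false

/-!
# Elimination of vertices of degree at most two, and deletion of vertex sets
-/

namespace Pool.Agent.TreewidthMinor

open SimpleGraph

variable {V : Type}

/-- A tree with a new leaf `none` attached at `t₀`. -/
def addLeaf {ι : Type} (T : SimpleGraph ι) (t₀ : ι) : SimpleGraph (Option ι) where
  Adj
    | some x, some y => T.Adj x y
    | some x, none => x = t₀
    | none, some y => y = t₀
    | none, none => False
  symm := ⟨by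
    rintro (_ | x) (_ | y) h
    · exact h
    · exact h
    · exact h
    · exact T.adj_symm h⟩
  loopless := ⟨by
    rintro (_ | x) h
    · exact h
    · exact T.irrefl h⟩

theorem addLeaf_walk {ι : Type} (T : SimpleGraph ι) (t₀ : ι) {x y : ι} (w : T.Walk x y) :
    ∃ w' : (addLeaf T t₀).Walk (some x) (some y), ∀ z ∈ w'.support, ∃ u ∈ w.support, z = some u := by
  induction w with
  | nil =>
    refine ⟨Walk.nil, ?_⟩
    intro z hz
    rw [Walk.support_nil, List.mem_singleton] at hz
    exact ⟨_, by simp, hz⟩
  | cons h p ih =>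
    rename_i a b c
    obtain ⟨w', hw'⟩ := ih
    have h' : (addLeaf T t₀).Adj (some a) (some b) := h
    refine ⟨Walk.cons h' w', ?_⟩
    intro z hz
    rw [Walk.support_cons, List.mem_cons] at hz
    rcases hz with rfl | hz
    · exact ⟨a, by simp, rfl⟩
    · obtain ⟨u, hu, rfl⟩ := hw' z hz
      refine ⟨u, ?_, rfl⟩
      rw [Walk.support_cons, List.mem_cons]
      exact Or.inr hu

theorem addLeaf_connected {ι : Type} (T : SimpleGraph ι) (hT : T.Connected) (t₀ : ι) :
    (addLeaf T t₀).Connected := by
  have h1 : ∀ x : ι, (addLeaf T t₀).Reachable (some x) (some t₀) := by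
    intro x
    obtain ⟨w⟩ := hT.preconnected x t₀
    exact ⟨(addLeaf_walk T t₀ w).choose⟩
  have h2 : ∀ x : Option ι, (addLeaf T t₀).Reachable x (some t₀) := by
    rintro (_ | x)
    · have : (addLeaf T t₀).Adj none (some t₀) := rfl
      exact this.reachable
    · exact h1 x
  have hne : Nonempty (Option ι) := ⟨none⟩
  refine ⟨?_⟩
  intro x y
  exact (h2 x).trans (h2 y).symm

theorem addLeaf_isTree {ι : Type} [Finite ι] (T : SimpleGraph ι) (hT : T.IsTree) (t₀ : ι) :
    (addLeaf T t₀).IsTree := by
  classical
  have hι : Fintype ι := Fintype.ofFinite ι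
  rw [isTree_iff_connected_and_card]
  refine ⟨addLeaf_connected T hT.connected t₀, ?_⟩
  have hT' := (isTree_iff_connected_and_card.1 hT).2
  -- the edges
  have hedge : (addLeaf T t₀).edgeSet =
      insert s(none, some t₀) ((Sym2.map some) '' T.edgeSet) := by
    ext e
    induction e with
    | h x y =>
      rw [mem_edgeSet]
      rcases x with _ | x <;> rcases y with _ | y
      · constructor
        · intro h; exact absurd h (fun h => h)
        · intro h
          rcases h with h | ⟨e, he, h⟩
          · rw [Sym2.eq_iff] at h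
            rcases h with ⟨-, h⟩ | ⟨h, -⟩ <;> cases h
          · induction e with
            | h a b => rw [Sym2.map_mk, Sym2.eq_iff] at h; rcases h with ⟨h, -⟩ | ⟨h, -⟩ <;> cases h
      · constructor
        · intro h
          have h' : y = t₀ := h
          left; rw [h']
        · intro h
          rcases h with h | ⟨e, he, h⟩
          · rw [Sym2.eq_iff] at h
            rcases h with ⟨-, h⟩ | ⟨h, -⟩
            · exact Option.some_injective _ h
            · cases h
          · induction e with
            | h a b =>
              rw [Sym2.map_mk, Sym2.eq_iff] at h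
              rcases h with ⟨h, -⟩ | ⟨-, h⟩ <;> cases h
      · constructor
        · intro h
          have h' : x = t₀ := h
          left; rw [h', Sym2.eq_swap]
        · intro h
          rcases h with h | ⟨e, he, h⟩
          · rw [Sym2.eq_iff] at h
            rcases h with ⟨h, -⟩ | ⟨h, -⟩
            · cases h
            · exact Option.some_injective _ h
          · induction e with
            | h a b =>
              rw [Sym2.map_mk, Sym2.eq_iff] at h
              rcases h with ⟨-, h⟩ | ⟨h, -⟩ <;> cases h
      · constructor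
        · intro h
          right
          exact ⟨s(x, y), h, rfl⟩
        · intro h
          rcases h with h | ⟨e, he, h⟩
          · rw [Sym2.eq_iff] at h
            rcases h with ⟨h, -⟩ | ⟨-, h⟩ <;> cases h
          · induction e with
            | h a b =>
              rw [Sym2.map_mk, Sym2.eq_iff] at h
              rw [mem_edgeSet] at he
              rcases h with ⟨h1, h2⟩ | ⟨h1, h2⟩
              · cases h1; cases h2; exact he
              · cases h1; cases h2; exact he.symm
  have hnot : s(none, some t₀) ∉ ((Sym2.map some) '' T.edgeSet) := by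
    rintro ⟨e, he, h⟩
    induction e with
    | h a b =>
      rw [Sym2.map_mk, Sym2.eq_iff] at h
      rcases h with ⟨h, -⟩ | ⟨-, h⟩ <;> cases h
  rw [hedge, Nat.card_coe_set_eq, Set.ncard_insert_of_notMem hnot (Set.toFinite _),
    Set.ncard_image_of_injective _ (Sym2.map.injective (Option.some_injective _)),
    ← Nat.card_coe_set_eq, hT', Nat.card_eq_fintype_card, Nat.card_eq_fintype_card,
    Fintype.card_option]

/-- The graph obtained by removing `v` and making its neighbours adjacent. -/
def elim (G : SimpleGraph V) (v : V) : SimpleGraph {x : V // x ≠ v} where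
  Adj x y := G.Adj x.1 y.1 ∨ (x ≠ y ∧ G.Adj v x.1 ∧ G.Adj v y.1)
  symm := ⟨fun x y h => by
    rcases h with h | ⟨h1, h2, h3⟩
    · exact Or.inl h.symm
    · exact Or.inr ⟨h1.symm, h3, h2⟩⟩
  loopless := ⟨fun x h => by
    rcases h with h | ⟨h1, -, -⟩
    · exact G.irrefl h
    · exact h1 rfl⟩

/-- If `v` has at most the two neighbours `a, b`, a tree-decomposition of the eliminated graph of
width `k ≥ 2` gives one of `G`. -/
theorem hasWidth_of_elim (G : SimpleGraph V) (v a b : V) (hv : ∀ c, G.Adj v c → c = a ∨ c = b)
    (k : ℕ) (hk : 2 ≤ k) (h : HasWidth (elim G v) k) : HasWidth G k := by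
  classical
  obtain ⟨ι, hι, D, hD⟩ := h
  obtain ⟨i0⟩ : Nonempty ι := D.isTree.connected.nonempty
  -- the attaching node
  have ht₀ : ∃ t₀ : ι, ∀ c (hc : G.Adj v c), (⟨c, hc.ne'⟩ : {x : V // x ≠ v}) ∈ D.bag t₀ := by
    by_cases ha : G.Adj v a
    · by_cases hb : G.Adj v b
      · by_cases hab : a = b
        · obtain ⟨t, ht⟩ := D.cover ⟨a, ha.ne'⟩
          refine ⟨t, ?_⟩
          intro c hc
          have : c = a := by
            rcases hv c hc with h | h
            · exact h
            · rw [h, hab]
          subst this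
          exact ht
        · have hadj : (elim G v).Adj ⟨a, ha.ne'⟩ ⟨b, hb.ne'⟩ := by
            refine Or.inr ⟨?_, ha, hb⟩
            intro h
            exact hab (congrArg Subtype.val h)
          obtain ⟨t, ht1, ht2⟩ := D.edge _ _ hadj
          refine ⟨t, ?_⟩
          intro c hc
          rcases hv c hc with h | h
          · subst h; exact ht1
          · subst h; exact ht2
      · obtain ⟨t, ht⟩ := D.cover ⟨a, ha.ne'⟩
        refine ⟨t, ?_⟩
        intro c hc
        rcases hv c hc with h | h
        · subst h; exact ht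
        · subst h; exact absurd hc hb
    · by_cases hb : G.Adj v b
      · obtain ⟨t, ht⟩ := D.cover ⟨b, hb.ne'⟩
        refine ⟨t, ?_⟩
        intro c hc
        rcases hv c hc with h | h
        · subst h; exact absurd hc ha
        · subst h; exact ht
      · refine ⟨i0, ?_⟩
        intro c hc
        rcases hv c hc with h | h
        · subst h; exact absurd hc ha
        · subst h; exact absurd hc hb
  obtain ⟨t₀, ht₀⟩ := ht₀
  have hfin : {c | G.Adj v c}.Finite := by
    refine (Set.toFinite ({a, b} : Set V)).subset ?_
    intro c hc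
    exact hv c hc
  let bag : Option ι → Finset V := fun t =>
    match t with
    | some t => (D.bag t).map (Function.Embedding.subtype _)
    | none => insert v hfin.toFinset
  have hbag_some : ∀ (t : ι) (x : V), x ∈ bag (some t) ↔ ∃ h : x ≠ v, (⟨x, h⟩ : {x : V // x ≠ v}) ∈ D.bag t := by
    intro t x
    simp only [bag, Finset.mem_map, Function.Embedding.subtype_apply]
    constructor
    · rintro ⟨y, hy, rfl⟩
      exact ⟨y.2, hy⟩
    · rintro ⟨h1, h2⟩
      exact ⟨⟨x, h1⟩, h2, rfl⟩
  have hbag_none : ∀ x : V, x ∈ bag none ↔ x = v ∨ G.Adj v x := by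
    intro x
    simp only [bag, Finset.mem_insert, Set.Finite.mem_toFinset, Set.mem_ofPred_eq]
  refine ⟨Option ι, inferInstance, ⟨addLeaf D.tree t₀, addLeaf_isTree _ D.isTree t₀, bag, ?_, ?_, ?_⟩, ?_⟩
  · intro x
    by_cases hx : x = v
    · exact ⟨none, (hbag_none x).2 (Or.inl hx)⟩
    · obtain ⟨t, ht⟩ := D.cover ⟨x, hx⟩
      exact ⟨some t, (hbag_some t x).2 ⟨hx, ht⟩⟩
  · intro x y hxy
    by_cases hx : x = v
    · subst hx
      exact ⟨none, (hbag_none x).2 (Or.inl rfl), (hbag_none y).2 (Or.inr hxy)⟩
    · by_cases hy : y = v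
      · subst hy
        exact ⟨none, (hbag_none x).2 (Or.inr hxy.symm), (hbag_none y).2 (Or.inl rfl)⟩
      · have : (elim G v).Adj ⟨x, hx⟩ ⟨y, hy⟩ := Or.inl hxy
        obtain ⟨t, ht1, ht2⟩ := D.edge _ _ this
        exact ⟨some t, (hbag_some t x).2 ⟨hx, ht1⟩, (hbag_some t y).2 ⟨hy, ht2⟩⟩
  · intro x
    apply connected_of_sc
    by_cases hx : x = v
    · have hset : {t : Option ι | x ∈ bag t} = {none} := by
        ext t
        rcases t with _ | t
        · simp only [Set.mem_ofPred_eq, Set.mem_singleton_iff, iff_true]
          exact (hbag_none x).2 (Or.inl hx)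
        · simp only [Set.mem_ofPred_eq, Set.mem_singleton_iff, reduceCtorEq, iff_false]
          rw [hbag_some]
          rintro ⟨h, -⟩
          exact h hx
      rw [hset]
      exact SC.singleton _ _
    · have hsc := sc_of_connected (D.conn ⟨x, hx⟩)
      -- the old nodes
      have hold : SC (addLeaf D.tree t₀) (some '' {t : ι | (⟨x, hx⟩ : {x : V // x ≠ v}) ∈ D.bag t}) := by
        obtain ⟨hne, hc⟩ := hsc
        refine ⟨hne.image _, ?_⟩
        rintro _ ⟨s, hs, rfl⟩ _ ⟨t, ht, rfl⟩
        obtain ⟨w, hw⟩ := hc s hs t ht
        obtain ⟨w', hw'⟩ := addLeaf_walk D.tree t₀ w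
        refine ⟨w', ?_⟩
        intro z hz
        obtain ⟨u, hu, rfl⟩ := hw' z hz
        exact ⟨u, hw u hu, rfl⟩
      by_cases hadj : G.Adj v x
      · have hset : {t : Option ι | x ∈ bag t} =
            (some '' {t : ι | (⟨x, hx⟩ : {x : V // x ≠ v}) ∈ D.bag t}) ∪ {none} := by
          ext t
          rcases t with _ | t
          · simp only [Set.mem_ofPred_eq, Set.mem_union, Set.mem_singleton_iff, or_true, iff_true]
            exact (hbag_none x).2 (Or.inr hadj)
          · rw [Set.mem_ofPred_eq, hbag_some]
            constructor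
            · rintro ⟨h1, h2⟩
              exact Or.inl ⟨t, h2, rfl⟩
            · rintro (⟨s, hs, h⟩ | h)
              · cases h
                exact ⟨hx, hs⟩
              · cases h
        rw [hset]
        refine SC.union_adj hold (SC.singleton _ _) (a := some t₀) (b := none) ?_ rfl rfl
        exact ⟨t₀, ht₀ x hadj, rfl⟩
      · have hset : {t : Option ι | x ∈ bag t} =
            (some '' {t : ι | (⟨x, hx⟩ : {x : V // x ≠ v}) ∈ D.bag t}) := by
          ext t
          rcases t with _ | t
          · rw [Set.mem_ofPred_eq, hbag_none]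
            constructor
            · rintro (h | h)
              · exact absurd h hx
              · exact absurd h hadj
            · rintro ⟨s, -, h⟩
              cases h
          · rw [Set.mem_ofPred_eq, hbag_some]
            constructor
            · rintro ⟨h1, h2⟩
              exact ⟨t, h2, rfl⟩
            · rintro ⟨s, hs, h⟩
              cases h
              exact ⟨hx, hs⟩
        rw [hset]
        exact hold
  · rintro (_ | t)
    · show (bag none).card ≤ k + 1
      have h1 : bag none ⊆ {v, a, b} := by
        intro x hx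
        rw [hbag_none] at hx
        rcases hx with rfl | hx
        · simp
        · rcases hv x hx with rfl | rfl <;> simp
      have h2 := Finset.card_le_card h1
      have h3 : ({v, a, b} : Finset V).card ≤ 3 := Finset.card_le_three
      omega
    · show (bag (some t)).card ≤ k + 1
      simp only [bag, Finset.card_map]
      exact hD t

/-- The eliminated graph is a minor. -/
theorem isMinor_elim (G : SimpleGraph V) (v a b : V) (hv : ∀ c, G.Adj v c → c = a ∨ c = b) :
    IsMinor (elim G v) G := by
  classical
  by_cases ha : G.Adj v a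
  · rw [isMinor_iff]
    refine ⟨fun x => if x.1 = a then {a} ∪ {v} else {x.1}, ?_, ?_, ?_⟩
    · intro x
      by_cases hx : x.1 = a
      · simp only [hx, if_true]
        exact SC.union_adj (SC.singleton _ _) (SC.singleton _ _) rfl rfl ha.symm
      · simp only [hx, if_false]
        exact SC.singleton _ _
    · intro x y hxy
      have hxy' : x.1 ≠ y.1 := fun h => hxy (Subtype.ext h)
      rw [Set.disjoint_left]
      intro z hz hz'
      by_cases hx : x.1 = a
      · have hy : y.1 ≠ a := fun h => hxy' (hx.trans h.symm)
        simp only [hx, if_true] at hz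
        simp only [hy, if_false, Set.mem_singleton_iff] at hz'
        rcases hz with h | h
        · have h' : z = a := h
          exact hy (hz'.symm.trans h')
        · have h' : z = v := h
          exact y.2 (hz'.symm.trans h')
      · simp only [hx, if_false, Set.mem_singleton_iff] at hz
        by_cases hy : y.1 = a
        · simp only [hy, if_true] at hz'
          rcases hz' with h | h
          · have h' : z = a := h
            exact hx (hz.symm.trans h')
          · have h' : z = v := h
            exact x.2 (hz.symm.trans h')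
        · simp only [hy, if_false, Set.mem_singleton_iff] at hz'
          exact hxy' (hz.symm.trans hz')
    · -- membership facts
      have hself : ∀ x : {x : V // x ≠ v}, x.1 ∈ (if x.1 = a then {a} ∪ {v} else {x.1} : Set V) := by
        intro x
        by_cases hx : x.1 = a
        · rw [if_pos hx, hx]; exact Or.inl rfl
        · rw [if_neg hx]; rfl
      intro x y hxy
      rcases hxy with hxy | ⟨hne, h1, h2⟩
      · exact ⟨x.1, hself x, y.1, hself y, hxy⟩
      · by_cases hx : x.1 = a
        · refine ⟨v, ?_, y.1, hself y, h2⟩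
          simp only [hx, if_true]
          exact Or.inr rfl
        · by_cases hy : y.1 = a
          · refine ⟨x.1, hself x, v, ?_, h1.symm⟩
            simp only [hy, if_true]
            exact Or.inr rfl
          · exfalso
            apply hne
            apply Subtype.ext
            have e1 : x.1 = b := (hv _ h1).resolve_left hx
            have e2 : y.1 = b := (hv _ h2).resolve_left hy
            rw [e1, e2]
  · -- at most the neighbour `b`
    refine isMinor_of_inj (fun x => x.1) Subtype.val_injective ?_
    intro x y hxy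
    rcases hxy with hxy | ⟨hne, h1, h2⟩
    · exact hxy
    · exfalso
      apply hne
      apply Subtype.ext
      have e1 : x.1 = b := (hv _ h1).resolve_left (fun h => ha (h ▸ h1))
      have e2 : y.1 = b := (hv _ h2).resolve_left (fun h => ha (h ▸ h2))
      rw [e1, e2]

/-- Every graph without a tree-decomposition of width `k ≥ 2` has a minor with the same property in
which each vertex has three neighbours. -/
theorem exists_minor_degree (k : ℕ) (hk : 2 ≤ k) :
    ∀ (n : ℕ) (V : Type) [Finite V] (G : SimpleGraph V), Nat.card V = n → ¬ HasWidth G k →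
      ∃ (V' : Type) (_ : Finite V') (G' : SimpleGraph V'), IsMinor G' G ∧ ¬ HasWidth G' k ∧
        ∀ v a b : V', ∃ c, G'.Adj v c ∧ c ≠ a ∧ c ≠ b := by
  intro n
  induction n with
  | zero =>
    intro V _ G hn hG
    have := Fintype.ofFinite V
    exact absurd (hasWidth_of_card G k (by rw [← Nat.card_eq_fintype_card, hn]; omega)) hG
  | succ n ih =>
    intro V _ G hn hG
    by_cases hdeg : ∀ v a b : V, ∃ c, G.Adj v c ∧ c ≠ a ∧ c ≠ b
    · exact ⟨V, inferInstance, G, isMinor_of_inj id Function.injective_id (fun _ _ h => h), hG, hdeg⟩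
    · push Not at hdeg
      obtain ⟨v, a, b, hv⟩ := hdeg
      have hv' : ∀ c, G.Adj v c → c = a ∨ c = b := by
        intro c hc
        by_cases h : c = a
        · exact Or.inl h
        · exact Or.inr (hv c hc h)
      have hG' : ¬ HasWidth (elim G v) k := fun h => hG (hasWidth_of_elim G v a b hv' k hk h)
      have hcard : Nat.card {x : V // x ≠ v} = n := by
        have := Fintype.ofFinite V
        classical
        rw [Nat.card_eq_fintype_card] at hn ⊢
        have h1 := Fintype.card_subtype_compl (fun x : V => x = v)
        have h2 : Fintype.card {x : V // x = v} = 1 := Fintype.card_subtype_eq v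
        rw [h2, hn] at h1
        exact h1
      obtain ⟨V', hV', G', h1, h2, h3⟩ := ih {x : V // x ≠ v} (elim G v) hcard hG'
      exact ⟨V', hV', G', h1.trans (isMinor_elim G v a b hv'), h2, h3⟩

/-- Deleting the set `X` lowers the tree-width by at most the size of `X`. -/
theorem hasWidth_of_compl (G : SimpleGraph V) (X : Finset V) (k : ℕ)
    (h : HasWidth (G.induce {x | x ∉ X}) k) : HasWidth G (k + X.card) := by
  classical
  obtain ⟨ι, hι, D, hD⟩ := h
  obtain ⟨i0⟩ : Nonempty ι := D.isTree.connected.nonempty
  let bag : ι → Finset V := fun t => (D.bag t).map (Function.Embedding.subtype _) ∪ X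
  have hbag : ∀ (t : ι) (x : V), x ∈ bag t ↔
      x ∈ X ∨ ∃ h : x ∉ X, (⟨x, h⟩ : {x | x ∉ X}) ∈ D.bag t := by
    intro t x
    simp only [bag, Finset.mem_union, Finset.mem_map, Function.Embedding.subtype_apply]
    constructor
    · rintro (⟨y, hy, rfl⟩ | h)
      · exact Or.inr ⟨y.2, hy⟩
      · exact Or.inl h
    · rintro (h | ⟨h1, h2⟩)
      · exact Or.inr h
      · exact Or.inl ⟨⟨x, h1⟩, h2, rfl⟩
  refine ⟨ι, hι, ⟨D.tree, D.isTree, bag, ?_, ?_, ?_⟩, ?_⟩
  · intro x
    by_cases hx : x ∈ X
    · exact ⟨i0, (hbag _ _).2 (Or.inl hx)⟩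
    · obtain ⟨t, ht⟩ := D.cover ⟨x, hx⟩
      exact ⟨t, (hbag _ _).2 (Or.inr ⟨hx, ht⟩)⟩
  · intro x y hxy
    by_cases hx : x ∈ X
    · by_cases hy : y ∈ X
      · exact ⟨i0, (hbag _ _).2 (Or.inl hx), (hbag _ _).2 (Or.inl hy)⟩
      · obtain ⟨t, ht⟩ := D.cover ⟨y, hy⟩
        exact ⟨t, (hbag _ _).2 (Or.inl hx), (hbag _ _).2 (Or.inr ⟨hy, ht⟩)⟩
    · by_cases hy : y ∈ X
      · obtain ⟨t, ht⟩ := D.cover ⟨x, hx⟩
        exact ⟨t, (hbag _ _).2 (Or.inr ⟨hx, ht⟩), (hbag _ _).2 (Or.inl hy)⟩
      · have : (G.induce {x | x ∉ X}).Adj ⟨x, hx⟩ ⟨y, hy⟩ := hxy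
        obtain ⟨t, ht1, ht2⟩ := D.edge _ _ this
        exact ⟨t, (hbag _ _).2 (Or.inr ⟨hx, ht1⟩), (hbag _ _).2 (Or.inr ⟨hy, ht2⟩)⟩
  · intro x
    apply connected_of_sc
    by_cases hx : x ∈ X
    · refine ⟨⟨i0, (hbag _ _).2 (Or.inl hx)⟩, ?_⟩
      intro s _ t _
      obtain ⟨w⟩ := D.isTree.connected.preconnected s t
      exact ⟨w, fun z _ => (hbag _ _).2 (Or.inl hx)⟩
    · have hset : {t : ι | x ∈ bag t} = {t : ι | (⟨x, hx⟩ : {x | x ∉ X}) ∈ D.bag t} := by
        ext t
        rw [Set.mem_ofPred_eq, Set.mem_ofPred_eq, hbag]
        constructor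
        · rintro (h | ⟨_, h⟩)
          · exact absurd h hx
          · exact h
        · intro h
          exact Or.inr ⟨hx, h⟩
      rw [hset]
      exact sc_of_connected (D.conn ⟨x, hx⟩)
  · intro t
    show (bag t).card ≤ k + X.card + 1
    have h1 : (bag t).card ≤ _ := Finset.card_union_le _ _
    rw [Finset.card_map] at h1
    have h2 := hD t
    omega

end Pool.Agent.TreewidthMinor
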