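import Pool.Agent.TreewidthMinor.Girth
import Pool.Agent.TreewidthMinor.Cyc

set_option autoImplicit false

/-!
# Large tree-width forces many disjoint cycles
-/

namespace Pool.Agent.TreewidthMinor

open SimpleGraph

/-- For every `t` some tree-width forces `t C₃` as a minor. -/
theorem exists_forces : ∀ t : ℕ, ∃ K : ℕ, Forces (triangles t) K := by
  classical
  intro t
  induction t with
  | zero =>
    refine ⟨0, ?_⟩
    intro V _ _ G _
    exact ⟨fun w => w.1.elim0, fun w => w.1.elim0, fun w => w.1.elim0, fun w => w.1.elim0⟩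
  | succ t ih =>
    obtain ⟨K, hK⟩ := ih
    obtain ⟨r, hr⟩ : ∃ r : ℕ, r = 2 * (3 * (t + 1) + 1) := ⟨_, rfl⟩
    refine ⟨K + (8 * r + 2) + 3, ?_⟩
    intro V _ _ G hG
    have hnw : ¬ HasWidth G (K + (8 * r + 2) + 2) := by
      rw [← treewidth_le_iff]
      omega
    obtain ⟨V', hV', G', hmin, hw', hdeg⟩ :=
      exists_minor_degree (K + (8 * r + 2) + 2) (by omega) (Nat.card V) V G rfl hnw
    have hne' : Nonempty V' := by
      by_contra hcon
      rw [not_nonempty_iff] at hcon
      have := Fintype.ofFinite V'
      exact hw' (hasWidth_of_card G' _ (by simp))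
    refine IsMinor.trans ?_ hmin
    by_cases hshort : NoShort G' (8 * r + 2)
    · obtain ⟨V'', hV'', hne'', G'', h1, h2⟩ := exists_dense_minor G' r hshort hdeg
      refine IsMinor.trans ?_ h1
      apply triangles_minor_of_dense
      rw [← hr]
      refine le_trans (Nat.mul_le_mul_right _ (Nat.le_succ r)) h2
    · obtain ⟨X, B, hX, hBX, b1, b2, b3⟩ := exists_small_model G' (8 * r + 2) hshort
      have hnw' : ¬ HasWidth (G'.induce {v | v ∉ X}) (K + 1) := by
        intro h
        apply hw'
        exact hasWidth_mono (by omega) (hasWidth_of_compl G' X (K + 1) h)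
      have hne2 : Nonempty {v | v ∉ X} := by
        by_contra hcon
        rw [not_nonempty_iff] at hcon
        have hF := Fintype.ofFinite {v | v ∉ X}
        exact hnw' (hasWidth_of_card _ _ (by rw [Fintype.card_eq_zero]; omega))
      have hfin : Finite {v | v ∉ X} := inferInstance
      have htw : K ≤ treewidth (G'.induce {v | v ∉ X}) := by
        by_contra hcon
        push Not at hcon
        apply hnw'
        rw [← treewidth_le_iff]
        omega
      have hm := @hK {v | v ∉ X} hfin hne2 _ htw
      rw [isMinor_iff] at hm ⊢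
      obtain ⟨A, a1, a2, a3⟩ := hm
      let A' : Fin t × Fin 3 → Set V' := fun w => (fun z : {v | v ∉ X} => z.1) '' A w
      have A1 : ∀ w, SC G' (A' w) := fun w =>
        SC.image (G' := G'.induce {v | v ∉ X}) (fun z : {v | v ∉ X} => z.1) (fun _ _ h => h) (a1 w)
      have A2 : ∀ w w', w ≠ w' → Disjoint (A' w) (A' w') := fun w w' h =>
        Set.disjoint_image_of_injective Subtype.val_injective (a2 w w' h)
      have A3 : ∀ w w', (triangles t).Adj w w' → ∃ x ∈ A' w, ∃ y ∈ A' w', G'.Adj x y := by
        intro w w' h
        obtain ⟨x, hx, y, hy, hxy⟩ := a3 w w' h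
        exact ⟨x.1, ⟨x, hx, rfl⟩, y.1, ⟨y, hy, rfl⟩, hxy⟩
      have AB : ∀ w i, Disjoint (A' w) (B i) := by
        intro w i
        rw [Set.disjoint_left]
        rintro z ⟨y, -, rfl⟩ hz
        exact y.2 (hBX i hz)
      let C : Fin (t + 1) × Fin 3 → Set V' := fun x =>
        if h : x.1.val < t then A' (⟨x.1.val, h⟩, x.2) else B x.2
      have C1 : ∀ (i : Fin (t + 1)) (l : Fin 3) (h : i.val < t), C (i, l) = A' (⟨i.val, h⟩, l) := by
        intro i l h; simp only [C, h, dif_pos]
      have C2 : ∀ (i : Fin (t + 1)) (l : Fin 3), ¬ i.val < t → C (i, l) = B l := by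
        intro i l h; simp only [C, h, dif_neg, not_false_eq_true]
      refine ⟨C, ?_, ?_, ?_⟩
      · rintro ⟨i, l⟩
        by_cases hi : i.val < t
        · rw [C1 i l hi]; exact A1 _
        · rw [C2 i l hi]; exact b1 _
      · rintro ⟨i, l⟩ ⟨i', l'⟩ hne
        by_cases hi : i.val < t
        · by_cases hi' : i'.val < t
          · rw [C1 i l hi, C1 i' l' hi']
            apply A2
            intro h
            apply hne
            rw [Prod.mk.injEq, Fin.mk.injEq] at h
            exact Prod.ext (Fin.ext h.1) h.2
          · rw [C1 i l hi, C2 i' l' hi']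
            exact AB _ _
        · by_cases hi' : i'.val < t
          · rw [C2 i l hi, C1 i' l' hi']
            exact (AB _ _).symm
          · rw [C2 i l hi, C2 i' l' hi']
            apply b2
            intro h
            apply hne
            have hii : i = i' := Fin.ext (by omega)
            rw [hii, h]
      · rintro ⟨i, l⟩ ⟨i', l'⟩ ⟨e1, e2⟩
        simp only at e1 e2
        subst e1
        by_cases hi : i.val < t
        · rw [C1 i l hi, C1 i l' hi]
          exact A3 _ _ ⟨rfl, e2⟩
        · rw [C2 i l hi, C2 i l' hi]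
          exact b3 l l' e2

end Pool.Agent.TreewidthMinor
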