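import Pool.Agent.TreewidthMinor.Dense

set_option autoImplicit false

/-!
# Large girth and minimum degree three give a dense minor
-/

namespace Pool.Agent.TreewidthMinor

open SimpleGraph

variable {V : Type}

/-- No short cycles: an edge `x y` cannot be closed by a walk of length less than `L` avoiding it. -/
def NoShort (G : SimpleGraph V) (L : ℕ) : Prop :=
  ∀ x y, G.Adj x y → ∀ w : G.Walk y x, s(x, y) ∉ w.edges → L ≤ w.length

/-- A short cycle gives a small triangle model. -/
theorem exists_small_model [DecidableEq V] (G : SimpleGraph V) (L : ℕ) (h : ¬ NoShort G L) :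
    ∃ (X : Finset V) (B : Fin 3 → Set V), X.card ≤ L ∧ (∀ i, B i ⊆ (X : Set V)) ∧
      (∀ i, SC G (B i)) ∧ (∀ i j, i ≠ j → Disjoint (B i) (B j)) ∧
      (∀ i j, i ≠ j → ∃ a ∈ B i, ∃ b ∈ B j, G.Adj a b) := by
  unfold NoShort at h
  push Not at h
  obtain ⟨x, y, hxy, w, hw, hlen⟩ := h
  have hp : w.bypass.IsPath := w.bypass_isPath
  have hpe : s(x, y) ∉ w.bypass.edges := fun h => hw (w.edges_bypass_subset_edges h)
  have hpl : w.bypass.length < L := lt_of_le_of_lt (w.length_bypass_le_length) hlen
  generalize w.bypass = p at hp hpe hpl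
  cases p with
  | nil => exact absurd rfl hxy.ne
  | cons h1 q =>
    rename_i c
    rw [Walk.cons_isPath_iff] at hp
    rw [Walk.edges_cons, List.mem_cons] at hpe
    push Not at hpe
    have hcx : c ≠ x := by
      rintro rfl
      exact hpe.1 Sym2.eq_swap
    obtain ⟨Q, hQ1, hQ2, hQ3, hQ4, z, hz, hxz⟩ := SC.split (SC.support q) (x := x) (y := c)
      q.end_mem_support q.start_mem_support hcx.symm
    have hyQ : y ∉ Q := fun h => hp.2 (hQ1 h)
    refine ⟨(Walk.cons h1 q).support.toFinset, ![{x}, {y}, Q], ?_, ?_, ?_, ?_, ?_⟩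
    · refine (List.toFinset_card_le _).trans ?_
      rw [Walk.length_support]
      exact hpl
    · intro i
      fin_cases i
      · intro a ha
        have : a = x := ha
        subst this
        simp
      · intro a ha
        have : a = y := ha
        subst this
        simp
      · intro a ha
        have : a ∈ q.support := hQ1 ha
        simp only [List.coe_toFinset, Set.mem_ofPred_eq, Walk.support_cons, List.mem_cons]
        exact Or.inr this
    · intro i
      fin_cases i
      · exact SC.singleton _ _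
      · exact SC.singleton _ _
      · exact hQ2
    · have d01 : Disjoint ({x} : Set V) {y} := by rw [Set.disjoint_singleton]; exact hxy.ne
      have d02 : Disjoint ({x} : Set V) Q := by rw [Set.disjoint_singleton_left]; exact hQ4
      have d12 : Disjoint ({y} : Set V) Q := by rw [Set.disjoint_singleton_left]; exact hyQ
      intro i j hij
      fin_cases i <;> fin_cases j
      · exact absurd rfl hij
      · exact d01
      · exact d02
      · exact d01.symm
      · exact absurd rfl hij
      · exact d12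
      · exact d02.symm
      · exact d12.symm
      · exact absurd rfl hij
    · intro i j hij
      fin_cases i <;> fin_cases j
      · exact absurd rfl hij
      · exact ⟨x, rfl, y, rfl, hxy⟩
      · exact ⟨x, rfl, z, hz, hxz⟩
      · exact ⟨y, rfl, x, rfl, hxy.symm⟩
      · exact absurd rfl hij
      · exact ⟨y, rfl, c, hQ3, h1⟩
      · exact ⟨z, hz, x, rfl, hxz.symm⟩
      · exact ⟨c, hQ3, y, rfl, h1.symm⟩
      · exact absurd rfl hij

/-- Long paths ending at a given vertex. -/
theorem exists_path (G : SimpleGraph V) (L : ℕ) (hG : NoShort G L)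
    (hdeg : ∀ v a b : V, ∃ c, G.Adj v c ∧ c ≠ a ∧ c ≠ b) (m : V) :
    ∀ j < L, ∃ (z : V) (p : G.Walk z m), p.IsPath ∧ p.length = j := by
  classical
  intro j
  induction j with
  | zero => intro _; exact ⟨m, Walk.nil, Walk.IsPath.nil, rfl⟩
  | succ j ih =>
    intro hj
    obtain ⟨z, p, hp, hlen⟩ := ih (by omega)
    cases p with
    | nil =>
      obtain ⟨c, hc, -, -⟩ := hdeg m m m
      refine ⟨c, Walk.cons hc.symm Walk.nil, ?_, ?_⟩
      · rw [Walk.cons_isPath_iff]
        refine ⟨Walk.IsPath.nil, ?_⟩
        rw [Walk.support_nil, List.mem_singleton]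
        exact hc.ne'
      · rw [Walk.length_cons, hlen]
    | cons h1 q =>
      rename_i a
      obtain ⟨c, hc, hca, -⟩ := hdeg z a a
      by_cases hcs : c ∈ (Walk.cons h1 q).support
      · exfalso
        have hedge : s(c, z) ∉ ((Walk.cons h1 q).takeUntil c hcs).edges := by
          intro h
          have h' := Walk.edges_takeUntil_subset_edges _ hcs h
          rw [Walk.edges_cons, List.mem_cons] at h'
          rw [Walk.cons_isPath_iff] at hp
          rcases h' with h' | h'
          · rw [Sym2.eq_iff] at h'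
            rcases h' with ⟨e1, e2⟩ | ⟨e1, e2⟩
            · exact hc.ne' e1
            · exact hca e1
          · exact hp.2 (Walk.snd_mem_support_of_mem_edges _ h')
        have h2 := hG c z hc.symm ((Walk.cons h1 q).takeUntil c hcs) hedge
        have h3 := Walk.length_takeUntil_le_length (Walk.cons h1 q) hcs
        omega
      · exact ⟨c, Walk.cons hc.symm (Walk.cons h1 q),
          (Walk.cons_isPath_iff _ _).2 ⟨hp, hcs⟩, by rw [Walk.length_cons, hlen]⟩

/-- Every finite nonempty graph with minimum degree three and without short cycles has a dense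
minor. -/
theorem exists_dense_minor [Finite V] [hne : Nonempty V] (G : SimpleGraph V) (r : ℕ)
    (hG : NoShort G (8 * r + 2))
    (hdeg : ∀ v a b : V, ∃ c, G.Adj v c ∧ c ≠ a ∧ c ≠ b) :
    ∃ (V' : Type) (_ : Finite V') (_ : Nonempty V') (G' : SimpleGraph V'), IsMinor G' G ∧
      (r + 1) * Nat.card V' ≤ (dartSet G').ncard := by
  classical
  have hV : Fintype V := Fintype.ofFinite V
  -- far apart centres
  let far : Finset V → Prop := fun M => ∀ m ∈ M, ∀ m' ∈ M, m ≠ m' →
    ∀ w : G.Walk m m', 2 * r < w.length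
  have hMex : ∃ M : Finset V, far M ∧ ∀ M' : Finset V, far M' → M'.card ≤ M.card := by
    obtain ⟨M, hM, hmax⟩ := Finset.exists_max_image
      (Finset.univ.filter (fun M : Finset V => far M)) Finset.card
      ⟨∅, by simp [far]⟩
    rw [Finset.mem_filter] at hM
    exact ⟨M, hM.2, fun M' hM' => hmax M' (by simp [hM'])⟩
  obtain ⟨M, hfar, hmax⟩ := hMex
  have hreach : ∀ v, ∃ n, ∃ m ∈ M, ∃ w : G.Walk v m, w.length = n ∧ n ≤ 2 * r := by
    intro v
    by_cases hv : v ∈ M
    · exact ⟨0, v, hv, Walk.nil, rfl, Nat.zero_le _⟩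
    · by_contra hcon
      push Not at hcon
      have hfar' : far (insert v M) := by
        intro m hm m' hm' hne' w
        rw [Finset.mem_insert] at hm hm'
        rcases hm with rfl | hm
        · rcases hm' with rfl | hm'
          · exact absurd rfl hne'
          · exact hcon _ m' hm' w rfl
        · rcases hm' with rfl | hm'
          · have := hcon _ m hm w.reverse rfl
            rwa [Walk.length_reverse] at this
          · exact hfar m hm m' hm' hne' w
      have := hmax _ hfar'
      rw [Finset.card_insert_of_notMem hv] at this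
      omega
  have hreach' : ∀ v, ∃ n, ∃ m ∈ M, ∃ w : G.Walk v m, w.length = n := by
    intro v
    obtain ⟨n, m, hm, w, hw, -⟩ := hreach v
    exact ⟨n, m, hm, w, hw⟩
  -- the distance to the set of centres
  obtain ⟨δ, hδ⟩ : ∃ δ : V → ℕ, ∀ v, δ v = Nat.find (hreach' v) := ⟨_, fun _ => rfl⟩
  have hδ1 : ∀ v, ∃ m ∈ M, ∃ w : G.Walk v m, w.length = δ v := by
    intro v; rw [hδ]; exact Nat.find_spec (hreach' v)
  have hδ2 : ∀ v, ∀ m ∈ M, ∀ w : G.Walk v m, δ v ≤ w.length := by
    intro v m hm w; rw [hδ]; exact Nat.find_min' (hreach' v) ⟨m, hm, w, rfl⟩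
  have hδ3 : ∀ v, δ v ≤ 2 * r := by
    intro v
    obtain ⟨n, m, hm, w, hw, hn⟩ := hreach v
    have := hδ2 v m hm w
    omega
  have hδ0 : ∀ v, δ v = 0 → v ∈ M := by
    intro v hv
    obtain ⟨m, hm, w, hw⟩ := hδ1 v
    rw [hv] at hw
    have := Walk.eq_of_length_eq_zero hw
    rw [this]; exact hm
  have hδM : ∀ v ∈ M, δ v = 0 := by
    intro v hv
    have := hδ2 v v hv Walk.nil
    simpa using this
  -- parents
  have hpar : ∀ v, ∃ u, δ v ≠ 0 → G.Adj v u ∧ δ u + 1 = δ v := by
    intro v
    by_cases hv : δ v = 0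
    · exact ⟨v, fun h => absurd hv h⟩
    · obtain ⟨m, hm, w, hw⟩ := hδ1 v
      cases w with
      | nil => rw [Walk.length_nil] at hw; exact absurd hw.symm hv
      | cons h q =>
        rename_i u
        refine ⟨u, fun _ => ⟨h, ?_⟩⟩
        rw [Walk.length_cons] at hw
        have h1 := hδ2 u m hm q
        obtain ⟨m', hm', w', hw'⟩ := hδ1 u
        have h2 := hδ2 v m' hm' (Walk.cons h w')
        rw [Walk.length_cons] at h2
        omega
  choose par hpar using hpar
  -- the centre of a vertex, with the walk of parent edges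
  have hc : ∀ n : ℕ, ∀ v, δ v = n → ∃ m ∈ M, m = par^[δ v] v ∧ ∃ w : G.Walk v m, w.length = δ v ∧
      (∀ e ∈ w.edges, ∃ z, δ z ≠ 0 ∧ e = s(z, par z)) ∧
      (∀ z ∈ w.support, par^[δ z] z = par^[δ v] v) := by
    intro n
    induction n with
    | zero =>
      intro v hv
      refine ⟨v, hδ0 v hv, ?_, Walk.nil, ?_, ?_, ?_⟩
      · rw [hv]; rfl
      · rw [hv]; rfl
      · intro e he
        rw [Walk.edges_nil] at he
        exact absurd he List.not_mem_nil
      · intro z hz
        rw [Walk.support_nil, List.mem_singleton] at hz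
        rw [hz]
    | succ n ih =>
      intro v hv
      have hv0 : δ v ≠ 0 := by omega
      obtain ⟨h1, h2⟩ := hpar v hv0
      obtain ⟨m, hm, hmeq, w, hw1, hw2, hw3⟩ := ih (par v) (by omega)
      have hiter : par^[δ v] v = par^[δ (par v)] (par v) := by
        rw [← h2, Function.iterate_succ_apply]
      refine ⟨m, hm, hmeq.trans hiter.symm, Walk.cons h1 w, ?_, ?_, ?_⟩
      · rw [Walk.length_cons, hw1]; exact h2
      · intro e he
        rw [Walk.edges_cons, List.mem_cons] at he
        rcases he with rfl | he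
        · exact ⟨v, hv0, rfl⟩
        · exact hw2 e he
      · intro z hz
        rw [Walk.support_cons, List.mem_cons] at hz
        rcases hz with rfl | hz
        · rfl
        · rw [hw3 z hz, hiter]
  obtain ⟨c, hcdef⟩ : ∃ c : V → V, ∀ v, c v = par^[δ v] v := ⟨_, fun _ => rfl⟩
  have hcM : ∀ v, c v ∈ M := by
    intro v
    obtain ⟨m, hm, hmeq, -⟩ := hc _ v rfl
    rw [hcdef, ← hmeq]; exact hm
  have hcm : ∀ m ∈ M, c m = m := by
    intro m hm
    rw [hcdef, hδM m hm]; rfl
  have hcw : ∀ v, ∃ w : G.Walk v (c v), w.length ≤ 2 * r ∧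
      (∀ e ∈ w.edges, ∃ z, δ z ≠ 0 ∧ e = s(z, par z)) ∧ (∀ z ∈ w.support, c z = c v) := by
    intro v
    obtain ⟨m, hm, hmeq, w, hw1, hw2, hw3⟩ := hc _ v rfl
    have : m = c v := by rw [hcdef, hmeq]
    subst this
    refine ⟨w, ?_, hw2, ?_⟩
    · rw [hw1]; exact hδ3 v
    · intro z hz
      rw [hcdef z, hcdef v]; exact hw3 z hz
  have hcw' : ∀ v m, c v = m → ∃ w : G.Walk v m, w.length ≤ 2 * r ∧
      (∀ e ∈ w.edges, ∃ z, δ z ≠ 0 ∧ e = s(z, par z)) ∧ (∀ z ∈ w.support, c z = m) := by
    rintro v m rfl
    exact hcw v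
  -- walks inside a cell
  have hcell : ∀ x y, c x = c y → ∃ w : G.Walk x y, w.length ≤ 4 * r ∧
      (∀ e ∈ w.edges, ∃ z, δ z ≠ 0 ∧ e = s(z, par z)) ∧ (∀ z ∈ w.support, c z = c x) := by
    intro x y hxy
    obtain ⟨w1, a1, a2, a3⟩ := hcw x
    obtain ⟨w2, b1, b2, b3⟩ := hcw' y (c x) hxy.symm
    refine ⟨w1.append w2.reverse, ?_, ?_, ?_⟩
    · rw [Walk.length_append, Walk.length_reverse]; omega
    · intro e he
      rw [Walk.edges_append, List.mem_append, Walk.edges_reverse, List.mem_reverse] at he
      rcases he with he | he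
      · exact a2 e he
      · exact b2 e he
    · intro z hz
      rw [Walk.mem_support_append_iff, Walk.support_reverse, List.mem_reverse] at hz
      rcases hz with hz | hz
      · exact a3 z hz
      · exact b3 z hz
  -- the contracted graph
  let Q : SimpleGraph {m : V // m ∈ M} :=
    { Adj := fun m m' => m ≠ m' ∧ ∃ x y, G.Adj x y ∧ c x = m.1 ∧ c y = m'.1
      symm := ⟨fun m m' h => ⟨h.1.symm, by
        obtain ⟨x, y, h1, h2, h3⟩ := h.2
        exact ⟨y, x, h1.symm, h3, h2⟩⟩⟩
      loopless := ⟨fun m h => h.1 rfl⟩ }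
  have hQminor : IsMinor Q G := by
    rw [isMinor_iff]
    refine ⟨fun m => {v | c v = m.1}, ?_, ?_, ?_⟩
    · intro m
      refine ⟨⟨m.1, hcm m.1 m.2⟩, ?_⟩
      intro x hx y hy
      have hx' : c x = m.1 := hx
      have hy' : c y = m.1 := hy
      obtain ⟨w, -, -, hw⟩ := hcell x y (hx'.trans hy'.symm)
      exact ⟨w, fun z hz => (hw z hz).trans hx'⟩
    · intro m m' hne'
      rw [Set.disjoint_left]
      intro z hz hz'
      apply hne'
      apply Subtype.ext
      have h1 : c z = m.1 := hz
      have h2 : c z = m'.1 := hz'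
      exact h1.symm.trans h2
    · rintro m m' ⟨-, x, y, hxy, hx, hy⟩
      exact ⟨x, hx, y, hy, hxy⟩
  have hMne : Nonempty {m : V // m ∈ M} := by
    obtain ⟨v⟩ := hne
    exact ⟨⟨c v, hcM v⟩⟩
  refine ⟨{m : V // m ∈ M}, inferInstance, hMne, Q, hQminor, ?_⟩
  -- darts inside the cells
  let I : Set (V × V) := (fun z => (z, par z)) '' Set.univ ∪ (fun z => (par z, z)) '' Set.univ
  have hI : I.ncard ≤ 2 * Nat.card V := by
    have h1 : I.ncard ≤ ((fun z : V => (z, par z)) '' Set.univ).ncard +
        ((fun z : V => (par z, z)) '' Set.univ).ncard := Set.ncard_union_le _ _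
    have h2 : ((fun z : V => (z, par z)) '' Set.univ).ncard ≤ (Set.univ : Set V).ncard :=
      Set.ncard_image_le (Set.toFinite _)
    have h3 : ((fun z : V => (par z, z)) '' Set.univ).ncard ≤ (Set.univ : Set V).ncard :=
      Set.ncard_image_le (Set.toFinite _)
    rw [Set.ncard_univ] at h2 h3
    omega
  have hinside : ∀ x y, G.Adj x y → c x = c y → (x, y) ∈ I := by
    intro x y hxy hcxy
    by_contra hnI
    obtain ⟨w, hw1, hw2, -⟩ := hcell y x hcxy.symm
    have hedge : s(x, y) ∉ w.edges := by
      intro h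
      obtain ⟨z, -, hz⟩ := hw2 _ h
      rw [Sym2.eq_iff] at hz
      rcases hz with ⟨h1, h2⟩ | ⟨h1, h2⟩
      · exact hnI (Or.inl ⟨z, Set.mem_univ _, by rw [h1, h2]⟩)
      · exact hnI (Or.inr ⟨z, Set.mem_univ _, by rw [h1, h2]⟩)
    have := hG x y hxy w hedge
    omega
  -- darts between the cells
  have hinter : (dartSet G \ I).ncard ≤ (dartSet Q).ncard := by
    let Φ : V × V → {m : V // m ∈ M} × {m : V // m ∈ M} :=
      fun x => (⟨c x.1, hcM _⟩, ⟨c x.2, hcM _⟩)
    have hne' : ∀ x y, (x, y) ∈ dartSet G \ I → c x ≠ c y := by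
      rintro x y ⟨h1, h2⟩ h3
      exact h2 (hinside x y h1 h3)
    refine Set.ncard_le_ncard_of_injOn Φ ?_ ?_ (Set.toFinite _)
    · rintro ⟨x, y⟩ hxy
      refine ⟨?_, x, y, hxy.1, rfl, rfl⟩
      intro h
      exact hne' x y hxy (congrArg Subtype.val h)
    · rintro ⟨x, y⟩ hxy ⟨x', y'⟩ hxy' h
      have e1 : c x = c x' := congrArg (fun z => z.1.1) h
      have e2 : c y = c y' := congrArg (fun z => z.2.1) h
      have hcne := hne' x y hxy
      by_contra hneq
      obtain ⟨w1, a1, -, a3⟩ := hcell y y' e2
      obtain ⟨w2, b1, -, b3⟩ := hcell x' x e1.symm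
      have hadj' : G.Adj y' x' := (show G.Adj x' y' from hxy'.1).symm
      have hedge : s(x, y) ∉ (w1.append (Walk.cons hadj' w2)).edges := by
        intro h
        rw [Walk.edges_append, List.mem_append, Walk.edges_cons, List.mem_cons] at h
        rcases h with h | h | h
        · exact hcne (a3 x (Walk.fst_mem_support_of_mem_edges _ h))
        · rw [Sym2.eq_iff] at h
          rcases h with ⟨h1, h2⟩ | ⟨h1, h2⟩
          · apply hcne
            rw [h1, e2]
          · exact hneq (by rw [h1, h2])
        · apply hcne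
          rw [b3 y (Walk.snd_mem_support_of_mem_edges _ h), e1]
      have h3 := hG x y hxy.1 _ hedge
      rw [Walk.length_append, Walk.length_cons] at h3
      omega
  -- many darts
  have hdarts : 3 * Nat.card V ≤ (dartSet G).ncard := by
    choose n1 h1 _ _ using fun v => hdeg v v v
    choose n2 h2 h21 _ using fun v => hdeg v (n1 v) (n1 v)
    choose n3 h3 h31 h32 using fun v => hdeg v (n1 v) (n2 v)
    let Ψ : V × Fin 3 → V × V := fun x => (x.1, (![n1 x.1, n2 x.1, n3 x.1] : Fin 3 → V) x.2)
    have hinj : Function.Injective Ψ := by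
      rintro ⟨v, i⟩ ⟨v', i'⟩ h
      have e1 : v = v' := congrArg Prod.fst h
      subst e1
      have e2 : (![n1 v, n2 v, n3 v] : Fin 3 → V) i = (![n1 v, n2 v, n3 v] : Fin 3 → V) i' :=
        congrArg Prod.snd h
      have : i = i' := by
        fin_cases i <;> fin_cases i'
        · rfl
        · exact absurd e2.symm (h21 v)
        · exact absurd e2.symm (h31 v)
        · exact absurd e2 (h21 v)
        · rfl
        · exact absurd e2.symm (h32 v)
        · exact absurd e2 (h31 v)
        · exact absurd e2 (h32 v)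
        · rfl
      rw [this]
    have hsub : Ψ '' Set.univ ⊆ dartSet G := by
      rintro _ ⟨⟨v, i⟩, -, rfl⟩
      show G.Adj v ((![n1 v, n2 v, n3 v] : Fin 3 → V) i)
      fin_cases i
      · exact h1 v
      · exact h2 v
      · exact h3 v
    have h4 := Set.ncard_le_ncard hsub (Set.toFinite _)
    rw [Set.ncard_image_of_injective _ hinj, Set.ncard_univ, Nat.card_eq_fintype_card,
      Fintype.card_prod, Fintype.card_fin] at h4
    rw [Nat.card_eq_fintype_card]
    omega
  -- few centres
  have hcentres : (r + 1) * Nat.card {m : V // m ∈ M} ≤ Nat.card V := by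
    choose z p hp hlen using fun m => exists_path G (8 * r + 2) hG hdeg m r (by omega)
    let Θ : {m : V // m ∈ M} × Fin (r + 1) → V := fun x => (p x.1.1).getVert x.2.val
    have hinj : Function.Injective Θ := by
      rintro ⟨m, i⟩ ⟨m', i'⟩ h
      have h' : (p m.1).getVert i.val = (p m'.1).getVert i'.val := h
      have hi := i.2
      have hi' := i'.2
      have hmm : m = m' := by
        by_contra hne'
        have hne'' : m.1 ≠ m'.1 := fun h => hne' (Subtype.ext h)
        have w1 : ∃ w : G.Walk ((p m.1).getVert i.val) m.1, w.length ≤ r :=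
          ⟨(p m.1).drop i.val, by rw [Walk.drop_length, hlen]; omega⟩
        have w2 : ∃ w : G.Walk ((p m'.1).getVert i'.val) m'.1, w.length ≤ r :=
          ⟨(p m'.1).drop i'.val, by rw [Walk.drop_length, hlen]; omega⟩
        rw [← h'] at w2
        obtain ⟨w1, hw1⟩ := w1
        obtain ⟨w2, hw2⟩ := w2
        have := hfar m.1 m.2 m'.1 m'.2 hne'' (w1.reverse.append w2)
        rw [Walk.length_append, Walk.length_reverse] at this
        omega
      subst hmm
      have : i.val = i'.val := (hp m.1).getVert_injOn (by rw [Set.mem_ofPred_eq, hlen]; omega)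
        (by rw [Set.mem_ofPred_eq, hlen]; omega) h'
      rw [Fin.ext this]
    have h4 := Nat.card_le_card_of_injective Θ hinj
    rw [Nat.card_prod, Nat.card_eq_fintype_card (α := Fin (r + 1)), Fintype.card_fin] at h4
    rw [mul_comm]; exact h4
  have hsplit : (dartSet G).ncard ≤ (dartSet G \ I).ncard + I.ncard :=
    Set.ncard_le_ncard_sdiff_add_ncard (dartSet G) I (Set.toFinite _)
  omega

end Pool.Agent.TreewidthMinor
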