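import Pool.Agent.TreewidthMinor.Defs

set_option autoImplicit false

/-!
# A lower bound for tree-width

If no two disjoint anticomplete vertex sets both have more than `m` elements, then some bag of every
tree-decomposition misses at most `3 m` vertices.
-/

namespace Pool.Agent.TreewidthMinor

open SimpleGraph

/-- Reachability by a walk avoiding the vertex `t`. -/
def Av {ι : Type} (T : SimpleGraph ι) (t u v : ι) : Prop :=
  ∃ w : T.Walk u v, t ∉ w.support

theorem Av.symm {ι : Type} {T : SimpleGraph ι} {t u v : ι} (h : Av T t u v) : Av T t v u := by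
  obtain ⟨w, hw⟩ := h
  exact ⟨w.reverse, by simpa using hw⟩

theorem Av.trans {ι : Type} {T : SimpleGraph ι} {t u v x : ι} (h : Av T t u v) (h' : Av T t v x) :
    Av T t u x := by
  obtain ⟨w, hw⟩ := h
  obtain ⟨w', hw'⟩ := h'
  refine ⟨w.append w', ?_⟩
  rw [Walk.mem_support_append_iff]
  tauto

/-- In a preconnected induced subgraph avoiding `t`, all vertices are joined by walks
avoiding `t`. -/
theorem av_of_induce {ι : Type} {T : SimpleGraph ι} {s : Set ι} (hs : (T.induce s).Preconnected)
    {t u v : ι} (ht : t ∉ s) (hu : u ∈ s) (hv : v ∈ s) : Av T t u v := by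
  have key : ∀ (a b : s) (_ : (T.induce s).Walk a b), ∃ w' : T.Walk a.1 b.1, t ∉ w'.support := by
    intro a b w
    induction w with
    | nil =>
      rename_i a
      refine ⟨Walk.nil, ?_⟩
      rw [Walk.support_nil, List.mem_singleton]
      rintro rfl
      exact ht a.2
    | cons h p ih =>
      rename_i a b c
      obtain ⟨w', hw'⟩ := ih
      have h' : T.Adj a.1 b.1 := h
      refine ⟨Walk.cons h' w', ?_⟩
      rw [Walk.support_cons, List.mem_cons]
      rintro (rfl | h2)
      · exact ht a.2
      · exact hw' h2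
  obtain ⟨w⟩ := hs ⟨u, hu⟩ ⟨v, hv⟩
  exact key _ _ w

/-- From a vertex `t` of a connected graph, each other vertex can be reached through a neighbour
of `t` by a walk avoiding `t`. -/
theorem exists_step {ι : Type} {T : SimpleGraph ι} (hT : T.Connected) {t u : ι} (h : u ≠ t) :
    ∃ s, T.Adj t s ∧ Av T t u s := by
  obtain ⟨p, hp⟩ := (hT.preconnected t u).exists_isPath
  cases p with
  | nil => exact absurd rfl h
  | cons hadj q =>
    rw [Walk.cons_isPath_iff] at hp
    exact ⟨_, hadj, (Av.symm ⟨q, hp.2⟩)⟩

/-- In a forest, for an edge `t t'` no vertex reaches `t'` avoiding `t` and `t` avoiding `t'`. -/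
theorem not_av_both {ι : Type} {T : SimpleGraph ι} (hT : T.IsAcyclic) {t t' u : ι}
    (hadj : T.Adj t t') (h1 : Av T t u t') (h2 : Av T t' u t) : False := by
  obtain ⟨w1, hw1⟩ := h1
  obtain ⟨w2, hw2⟩ := h2
  have hb := (isAcyclic_iff_forall_adj_isBridge.1 hT) hadj
  rw [isBridge_iff_forall_walk_mem_edges] at hb
  have := hb (w2.reverse.append w1)
  rw [Walk.edges_append, List.mem_append] at this
  rcases this with h | h
  · rw [Walk.edges_reverse, List.mem_reverse] at h
    exact hw2 (Walk.snd_mem_support_of_mem_edges _ h)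
  · exact hw1 (Walk.fst_mem_support_of_mem_edges _ h)

/-- Grouping lemma. -/
theorem grouping {V κ : Type} (S : Finset V) (c : V → κ) (m : ℕ) (hS : 3 * m < S.card)
    [DecidableEq κ]
    (h : ∀ k, (S.filter (fun v => c v = k)).card ≤ m) :
    ∃ K : Finset κ, m < (S.filter (fun v => c v ∈ K)).card ∧
      m < (S.filter (fun v => c v ∉ K)).card := by
  have hex : ∃ n : ℕ, ∃ K : Finset κ, K.card = n ∧ m < (S.filter (fun v => c v ∈ K)).card := by
    refine ⟨_, S.image c, rfl, ?_⟩
    rw [Finset.filter_true_of_mem (fun v hv => Finset.mem_image_of_mem c hv)]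
    omega
  classical
  obtain ⟨K, hK, hKm⟩ := Nat.find_spec hex
  have hmin : ∀ K' : Finset κ, K'.card < K.card → (S.filter (fun v => c v ∈ K')).card ≤ m := by
    intro K' hK'
    by_contra hcon
    rw [hK] at hK'
    exact Nat.find_min hex hK' ⟨K', rfl, by omega⟩
  have hne : K.Nonempty := by
    rw [Finset.nonempty_iff_ne_empty]
    rintro rfl
    simp at hKm
  obtain ⟨k, hk⟩ := hne
  have h1 := hmin (K.erase k) (Finset.card_erase_lt_of_mem hk)
  have h2 := h k
  have h3 : S.filter (fun v => c v ∈ K) ⊆
      S.filter (fun v => c v ∈ K.erase k) ∪ S.filter (fun v => c v = k) := by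
    intro v hv
    rw [Finset.mem_union, Finset.mem_filter, Finset.mem_filter]
    rw [Finset.mem_filter] at hv
    by_cases hvk : c v = k
    · exact Or.inr ⟨hv.1, hvk⟩
    · exact Or.inl ⟨hv.1, Finset.mem_erase.2 ⟨hvk, hv.2⟩⟩
  have h4 := (Finset.card_le_card h3).trans (Finset.card_union_le _ _)
  have h5 := Finset.card_filter_add_card_filter_not (s := S) (fun v => c v ∈ K)
  exact ⟨K, hKm, by omega⟩

/-- If no two disjoint anticomplete sets both have more than `m` elements, then every
tree-decomposition has a bag missing at most `3 m` vertices. -/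
theorem exists_big_bag {V ι : Type} [Fintype V] [DecidableEq V] [Finite ι] {G : SimpleGraph V}
    (D : TreeDecomposition G ι) (m : ℕ)
    (hP : ∀ A B : Finset V, Disjoint A B → (∀ a ∈ A, ∀ b ∈ B, ¬ G.Adj a b) →
      A.card ≤ m ∨ B.card ≤ m) :
    ∃ t, ((D.bag t)ᶜ : Finset V).card ≤ 3 * m := by
  classical
  by_contra hcon
  push Not at hcon
  have : Fintype ι := Fintype.ofFinite ι
  choose h hh using D.cover
  -- key fact: if `v ∉ bag t` then all nodes containing `v` are equivalent
  have key : ∀ (t : ι) (v : V) (u u' : ι), v ∉ D.bag t → v ∈ D.bag u → v ∈ D.bag u' →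
      Av D.tree t u u' := by
    intro t v u u' ht hu hu'
    exact av_of_induce (D.conn v).preconnected (s := {t : ι | v ∈ D.bag t}) ht hu hu'
  -- big colour classes
  have big : ∀ t : ι, ∃ u : ι, u ≠ t ∧
      m < (((D.bag t)ᶜ : Finset V).filter (fun v => Av D.tree t (h v) u)).card := by
    intro t
    let c : V → Set ι := fun v => {u | Av D.tree t (h v) u}
    have hexk : ∃ k, m < (((D.bag t)ᶜ : Finset V).filter (fun v => c v = k)).card := by
      by_contra hk
      push Not at hk
      obtain ⟨K, hK1, hK2⟩ := grouping _ c m (hcon t) hk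
      have hdisj : Disjoint (((D.bag t)ᶜ : Finset V).filter (fun v => c v ∈ K))
          (((D.bag t)ᶜ : Finset V).filter (fun v => c v ∉ K)) :=
        Finset.disjoint_filter_filter_not _ _ _
      have hanti : ∀ a ∈ (((D.bag t)ᶜ : Finset V).filter (fun v => c v ∈ K)),
          ∀ b ∈ (((D.bag t)ᶜ : Finset V).filter (fun v => c v ∉ K)), ¬ G.Adj a b := by
        intro a ha b hb hadj
        rw [Finset.mem_filter, Finset.mem_compl] at ha hb
        obtain ⟨u, hau, hbu⟩ := D.edge a b hadj
        have e1 := key t a (h a) u ha.1 (hh a) hau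
        have e2 := key t b (h b) u hb.1 (hh b) hbu
        have : c a = c b := by
          ext x
          constructor
          · intro hx
            exact (e2.trans e1.symm).trans hx
          · intro hx
            exact (e1.trans e2.symm).trans hx
        rw [this] at ha
        exact hb.2 ha.2
      rcases hP _ _ hdisj hanti with h1 | h1
      · omega
      · omega
    obtain ⟨k, hk⟩ := hexk
    have hne : (((D.bag t)ᶜ : Finset V).filter (fun v => c v = k)).Nonempty := by
      rw [← Finset.card_pos]; omega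
    obtain ⟨v, hv⟩ := hne
    rw [Finset.mem_filter, Finset.mem_compl] at hv
    refine ⟨h v, ?_, lt_of_lt_of_le hk (Finset.card_le_card ?_)⟩
    · intro heq
      apply hv.1
      rw [← heq]
      exact hh v
    · intro v' hv'
      rw [Finset.mem_filter] at hv' ⊢
      refine ⟨hv'.1, ?_⟩
      have : h v ∈ c v' := by
        rw [hv'.2, ← hv.2]
        exact key t v (h v) (h v) hv.1 (hh v) (hh v)
      exact this
  choose u hu hbig using big
  choose s hadj hs using fun t => exists_step D.isTree.connected (hu t)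
  -- the map from nodes to edges is not injective
  have hcard := D.isTree.card_edgeFinset
  have hninj : ¬ Function.Injective (fun t : ι => (⟨s(t, s t), hadj t⟩ : D.tree.edgeSet)) := by
    intro hinj
    have h1 := Fintype.card_le_of_injective _ hinj
    rw [← SimpleGraph.edgeFinset_card] at h1
    omega
  unfold Function.Injective at hninj
  push Not at hninj
  obtain ⟨t, t', heq, hne⟩ := hninj
  have heq' : s(t, s t) = s(t', s t') := congrArg Subtype.val heq
  rw [Sym2.eq_iff] at heq'
  rcases heq' with ⟨h1, -⟩ | ⟨h1, h2⟩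
  · exact hne h1
  -- now `s t' = t` and `s t = t'`
  have hA : ∀ (x y : ι), s x = y → ∀ v ∈ (((D.bag x)ᶜ : Finset V).filter
      (fun v => Av D.tree x (h v) (u x))), ∀ z, v ∈ D.bag z → Av D.tree x z y := by
    intro x y hxy v hv z hz
    rw [Finset.mem_filter, Finset.mem_compl] at hv
    have e1 := key x v z (h v) hv.1 hz (hh v)
    exact (e1.trans hv.2).trans (hxy ▸ hs x)
  have hcontra : ∀ a ∈ (((D.bag t)ᶜ : Finset V).filter (fun v => Av D.tree t (h v) (u t))),
      ∀ b ∈ (((D.bag t')ᶜ : Finset V).filter (fun v => Av D.tree t' (h v) (u t'))),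
      ∀ z, a ∈ D.bag z → b ∈ D.bag z → False := by
    intro a ha b hb z haz hbz
    exact not_av_both D.isTree.isAcyclic (t := t) (t' := t') (u := z) (h2 ▸ hadj t)
      (hA t t' h2 a ha z haz) (hA t' t h1.symm b hb z hbz)
  have hd : Disjoint (((D.bag t)ᶜ : Finset V).filter (fun v => Av D.tree t (h v) (u t)))
      (((D.bag t')ᶜ : Finset V).filter (fun v => Av D.tree t' (h v) (u t'))) := by
    rw [Finset.disjoint_left]
    intro a ha hb
    exact hcontra a ha a hb (h a) (hh a) (hh a)
  have ha : ∀ a ∈ (((D.bag t)ᶜ : Finset V).filter (fun v => Av D.tree t (h v) (u t))),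
      ∀ b ∈ (((D.bag t')ᶜ : Finset V).filter (fun v => Av D.tree t' (h v) (u t'))),
      ¬ G.Adj a b := by
    intro a ha b hb hab
    obtain ⟨z, hz1, hz2⟩ := D.edge a b hab
    exact hcontra a ha b hb z hz1 hz2
  have hb1 := hbig t
  have hb2 := hbig t'
  rcases hP _ _ hd ha with h3 | h3
  · omega
  · omega

/-- The one-bag tree-decomposition. -/
theorem hasWidth_of_card {V : Type} [Fintype V] (G : SimpleGraph V) (k : ℕ)
    (hk : Fintype.card V ≤ k + 1) : HasWidth G k := by
  refine ⟨Unit, inferInstance, ⟨⊥, ?_, fun _ => Finset.univ, ?_, ?_, ?_⟩, ?_⟩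
  · exact SimpleGraph.IsTree.of_subsingleton
  · intro v; exact ⟨(), Finset.mem_univ _⟩
  · intro u v _; exact ⟨(), Finset.mem_univ _, Finset.mem_univ _⟩
  · intro v
    have : Nonempty {t : Unit | v ∈ (Finset.univ : Finset V)} := ⟨⟨(), Finset.mem_univ _⟩⟩
    refine ⟨?_⟩
    intro x y
    have : x = y := Subsingleton.elim _ _
    rw [this]
  · intro t; simpa using hk

theorem hasWidth_mono {V : Type} {G : SimpleGraph V} {k l : ℕ} (hkl : k ≤ l) (h : HasWidth G k) :
    HasWidth G l := by
  obtain ⟨ι, hι, D, hD⟩ := h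
  exact ⟨ι, hι, D, fun t => (hD t).trans (by omega)⟩

theorem hasWidth_treewidth {V : Type} [Finite V] (G : SimpleGraph V) :
    HasWidth G (treewidth G) := by
  have := Fintype.ofFinite V
  exact Nat.sInf_mem (s := {k : ℕ | HasWidth G k})
    ⟨Fintype.card V, hasWidth_of_card G _ (by omega)⟩

theorem treewidth_le_iff {V : Type} [Finite V] (G : SimpleGraph V) (k : ℕ) :
    treewidth G ≤ k ↔ HasWidth G k := by
  constructor
  · intro h
    exact hasWidth_mono h (hasWidth_treewidth G)
  · intro h
    exact Nat.sInf_le h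

/-- The lower bound for the tree-width. -/
theorem le_treewidth {V : Type} [Fintype V] [DecidableEq V] (G : SimpleGraph V) (m : ℕ)
    (hP : ∀ A B : Finset V, Disjoint A B → (∀ a ∈ A, ∀ b ∈ B, ¬ G.Adj a b) →
      A.card ≤ m ∨ B.card ≤ m) :
    Fintype.card V ≤ treewidth G + 1 + 3 * m := by
  obtain ⟨ι, hι, D, hD⟩ := hasWidth_treewidth G
  obtain ⟨t, ht⟩ := exists_big_bag D m hP
  have h1 := hD t
  have h2 := Finset.card_add_card_compl (D.bag t)
  omega

end Pool.Agent.TreewidthMinor
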